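import Pool.Agent.N768.G3.ALG
import Pool.Agent.N700.G3.CA
import Pool.Agent.H746UG.VN

/-!
# Characters of infinite order for metabelian groups that are not virtually nilpotent

Helper4, page MP_d69e80_al (after helpers 746, 768, 700).
-/

set_option autoImplicit false

namespace Pool.Agent.Helper4W

open Pool.Agent.N600.G3 Pool.Agent.H746UG Subgroup
open scoped IsMulCommutative commutatorElement TensorProduct

universe u

/-- functionals at a prime of the support -/
lemma functional (R : Type u) [CommRing R] (N : Type u) [AddCommGroup N] [Module R N]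
    [Module.Finite R N] (p : PrimeSpectrum R) (hp : p ∈ Module.support R N) :
    ∃ f : N →+ p.asIdeal.ResidueField,
      (∀ r n, f (r • n) = algebraMap R p.asIdeal.ResidueField r * f n) ∧ f ≠ 0 := by
  rw [Module.mem_support_iff_nontrivial_residueField_tensorProduct] at hp
  obtain ⟨v, hv⟩ := exists_ne (0 : p.asIdeal.ResidueField ⊗[R] N)
  obtain ⟨l, hl⟩ : ∃ l : Module.Dual p.asIdeal.ResidueField (p.asIdeal.ResidueField ⊗[R] N),
      l v ≠ 0 := by
    by_contra hcon
    push Not at hcon
    exact hv ((Module.forall_dual_apply_eq_zero_iff _ v).1 hcon)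
  let f : N →ₗ[R] p.asIdeal.ResidueField :=
    (l.restrictScalars R) ∘ₗ (TensorProduct.mk R p.asIdeal.ResidueField N 1)
  refine ⟨f.toAddMonoidHom, ?_, ?_⟩
  · intro r n
    show f (r • n) = _ * f n
    rw [map_smul, Algebra.smul_def]
  · intro h0
    apply hl
    have h1 : ∀ n : N, l (1 ⊗ₜ[R] n) = 0 := fun n => DFunLike.congr_fun h0 n
    have h2 : l = 0 := by
      apply TensorProduct.AlgebraTensorModule.curry_injective
      ext n
      simpa using h1 n
    rw [h2]
    rfl

/-- an integral element of a field of positive characteristic is zero or a root of unity -/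
lemma root_of_char {F : Type*} [Field F] (x : F) (hx0 : x ≠ 0) (hx : IsIntegral ℤ x) (n : ℕ)
    (hn : n ≠ 0) (hnF : (n : F) = 0) : ∃ m > 0, x ^ m = 1 := by
  have h1 := hx.fg_adjoin_singleton
  have h2 : Module.Finite ℤ (Subalgebra.toSubmodule (Algebra.adjoin ℤ {x})) :=
    Module.Finite.iff_fg.2 h1
  have h3 : Module.IsTorsion ℤ (Subalgebra.toSubmodule (Algebra.adjoin ℤ {x})) := by
    intro a
    refine ⟨⟨(n : ℤ), mem_nonZeroDivisors_of_ne_zero (by exact_mod_cast hn)⟩, ?_⟩
    apply Subtype.ext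
    show (n : ℤ) • (a : F) = 0
    rw [zsmul_eq_mul]
    push_cast
    rw [hnF, zero_mul]
  have h4 : Finite (Subalgebra.toSubmodule (Algebra.adjoin ℤ {x})) :=
    Module.finite_of_fg_torsion _ h3
  have h5 : ∀ i : ℕ, x ^ i ∈ Subalgebra.toSubmodule (Algebra.adjoin ℤ {x}) := fun i =>
    (Algebra.adjoin ℤ {x}).pow_mem (Algebra.subset_adjoin rfl) i
  obtain ⟨i, j, hij, he⟩ := Finite.exists_ne_map_eq_of_infinite
    (fun i : ℕ => (⟨x ^ i, h5 i⟩ : Subalgebra.toSubmodule (Algebra.adjoin ℤ {x})))
  have he' : x ^ i = x ^ j := congrArg Subtype.val he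
  rcases lt_or_gt_of_ne hij with h | h
  · refine ⟨j - i, by omega, ?_⟩
    have h6 : x ^ j = x ^ i * x ^ (j - i) := by rw [← pow_add]; congr 1; omega
    rw [h6] at he'
    have h7 : x ^ i * 1 = x ^ i * x ^ (j - i) := by rw [mul_one]; exact he'
    exact (mul_left_cancel₀ (pow_ne_zero _ hx0) h7).symm
  · refine ⟨i - j, by omega, ?_⟩
    have h6 : x ^ i = x ^ j * x ^ (i - j) := by rw [← pow_add]; congr 1; omega
    rw [h6] at he'
    have h7 : x ^ j * x ^ (i - j) = x ^ j * 1 := by rw [mul_one]; exact he'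
    exact mul_left_cancel₀ (pow_ne_zero _ hx0) h7

theorem alg (M : Type u) [Group M] [hMfg : Group.FG M]
    (hab : ∀ x ∈ commutator M, ∀ y ∈ commutator M, x * y = y * x) (hfg : (commutator M).FG)
    (hnv : ¬ Group.IsVirtuallyNilpotent M) :
    ∃ (F : Type u) (_ : Field F) (_ : CharZero F) (χ : M →* Fˣ) (f : M → F),
      (∀ x ∈ commutator M, ∀ y ∈ commutator M, f (x * y) = f x + f y) ∧
      (∀ m, ∀ x ∈ commutator M, f (m * x * m⁻¹) = (χ m : F) * f x) ∧
      (∃ x ∈ commutator M, f x ≠ 0) ∧ (∃ m, ¬ IsOfFinOrder (χ m)) := by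
  classical
  have hNc : IsMulCommutative (commutator M) :=
    ⟨⟨fun a b => Subtype.ext (hab a a.2 b b.2)⟩⟩
  have hQ : ∀ g h : M, g * h * g⁻¹ * h⁻¹ ∈ commutator M := fun g h =>
    commutator_mem_commutator (mem_top g) (mem_top h)
  obtain ⟨S, hS⟩ := (Group.FG.out : (⊤ : Subgroup M).FG)
  have hVU : ¬ VU (commutator M) hQ ⊥ := fun h =>
    hnv (vn_of_VU (commutator M) hQ (S : Set M) S.finite_toSet hS h)
  unfold VU at hVU
  push Not at hVU
  obtain ⟨g, hg⟩ := hVU
  set x : RR (commutator M) := qg (commutator M) hQ g with hx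
  have hxk : ∀ m > 0, ∀ k, (x ^ m - 1) ^ k ≠ 0 := by
    intro m hm k h0
    obtain ⟨a, ha⟩ := hg m hm k
    apply ha
    rw [h0, zero_smul]
    exact Submodule.zero_mem _
  let Sg : Submonoid (RR (commutator M)) := Submonoid.closure {y | ∃ m > 0, y = x ^ m - 1}
  have hSg : ∀ y ∈ Sg, ∃ m > 0, ∃ k, y ∣ (x ^ m - 1) ^ k := by
    intro y hy
    induction hy using Submonoid.closure_induction with
    | mem y hy =>
      obtain ⟨m, hm, rfl⟩ := hy
      exact ⟨m, hm, 1, by rw [pow_one]⟩
    | one => exact ⟨1, one_pos, 0, one_dvd _⟩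
    | mul y z _ _ hy hz =>
      obtain ⟨m, hm, k, hk⟩ := hy
      obtain ⟨n, hn, l, hl⟩ := hz
      refine ⟨m * n, Nat.mul_pos hm hn, k + l, ?_⟩
      have h1 : (x ^ m - 1) ∣ (x ^ (m * n) - 1) := by
        rw [pow_mul]
        simpa using sub_dvd_pow_sub_pow (x ^ m) 1 n
      have h2 : (x ^ n - 1) ∣ (x ^ (m * n) - 1) := by
        rw [mul_comm m n, pow_mul]
        simpa using sub_dvd_pow_sub_pow (x ^ n) 1 m
      rw [pow_add]
      exact mul_dvd_mul (hk.trans (pow_dvd_pow_of_dvd h1 k)) (hl.trans (pow_dvd_pow_of_dvd h2 l))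
  have h0 : (0 : RR (commutator M)) ∉ Sg := by
    intro h
    obtain ⟨m, hm, k, hk⟩ := hSg 0 h
    exact hxk m hm k (zero_dvd_iff.1 hk)
  obtain ⟨P, hP, -, hdisj⟩ := Ideal.exists_le_prime_disjoint (⊥ : Ideal (RR (commutator M))) Sg (by
    rw [Set.disjoint_left]
    intro a ha ha'
    rw [SetLike.mem_coe, Ideal.mem_bot] at ha
    rw [ha] at ha'
    exact h0 ha')
  let p : PrimeSpectrum (RR (commutator M)) := ⟨P, hP⟩
  have hmf0 : Module.Finite ℤ (Additive (commutator M)) := finite_of_fg (commutator M) hfg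
  have hmf : Module.Finite (RR (commutator M)) (Additive (commutator M)) :=
    Module.Finite.of_restrictScalars_finite ℤ _ _
  have hpsupp : p ∈ Module.support (RR (commutator M)) (Additive (commutator M)) := by
    rw [Module.mem_support_iff_of_finite]
    intro r hr
    rw [Module.mem_annihilator] at hr
    rw [RR_faithful (commutator M) r hr]
    exact Ideal.zero_mem _
  obtain ⟨f0, hlin, hne⟩ := functional _ _ p hpsupp
  set φ : RR (commutator M) →+* p.asIdeal.ResidueField :=
    algebraMap (RR (commutator M)) p.asIdeal.ResidueField with hφ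
  have hker : ∀ a, φ a = 0 ↔ a ∈ P := by
    intro a
    rw [← RingHom.mem_ker]
    have : RingHom.ker φ = p.asIdeal := p.asIdeal.ker_algebraMap_residueField
    rw [this]
  have hx1 : ∀ m > 0, φ x ^ m ≠ 1 := by
    intro m hm h
    have h1 : φ (x ^ m - 1) = 0 := by rw [map_sub, map_pow, map_one, h, sub_self]
    rw [hker] at h1
    exact Set.disjoint_left.1 hdisj h1 (Submonoid.subset_closure ⟨m, hm, rfl⟩)
  have hcen := N768.G3.center_top M
  let z : M →* center (M ⧸ commutator M) :=
    { toFun := fun m => ⟨QuotientGroup.mk m, by rw [hcen]; trivial⟩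
      map_one' := rfl
      map_mul' := fun _ _ => rfl }
  let χ : M →* (p.asIdeal.ResidueField)ˣ :=
    (((φ : RR (commutator M) →* p.asIdeal.ResidueField).comp (qq (commutator M))).comp z).toHomUnits
  have hχ : ∀ m, ((χ m : (p.asIdeal.ResidueField)ˣ) : p.asIdeal.ResidueField) =
      φ (qq (commutator M) (z m)) := fun m => rfl
  have hχg : ((χ g : (p.asIdeal.ResidueField)ˣ) : p.asIdeal.ResidueField) = φ x := rfl
  have hx0 : φ x ≠ 0 := by
    rw [← hχg]
    exact Units.ne_zero _
  have hint : IsIntegral ℤ x := by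
    have h1 : IsIntegral ℤ ((RingHom.kerLift (phi (commutator M))) x) :=
      Algebra.IsIntegral.isIntegral _
    have hinj : Function.Injective (RingHom.kerLift (phi (commutator M))) :=
      RingHom.kerLift_injective _
    exact (isIntegral_algHom_iff (RingHom.kerLift (phi (commutator M))).toIntAlgHom hinj).1 h1
  have hchar : CharZero p.asIdeal.ResidueField := by
    by_contra hcz
    have hex : ∃ n : ℕ, n ≠ 0 ∧ (n : p.asIdeal.ResidueField) = 0 := by
      by_contra hcon
      push Not at hcon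
      exact hcz (charZero_of_inj_zero fun n hn => by
        by_contra h
        exact hcon n h hn)
    obtain ⟨n, hn, hn0⟩ := hex
    have hint2 : @IsIntegral ℤ p.asIdeal.ResidueField _ _ (Ring.toIntAlgebra _) (φ x) := by
      obtain ⟨q, hq, hq0⟩ := hint
      refine ⟨q, hq, ?_⟩
      have h1 := congrArg φ hq0
      rw [map_zero, Polynomial.hom_eval₂] at h1
      have h2 : φ.comp (algebraMap ℤ (RR (commutator M))) =
          @algebraMap ℤ p.asIdeal.ResidueField _ _ (Ring.toIntAlgebra _) := Subsingleton.elim _ _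
      rw [h2] at h1
      exact h1
    obtain ⟨m, hm, h⟩ := root_of_char (φ x) hx0 hint2 n hn hn0
    exact hx1 m hm h
  refine ⟨p.asIdeal.ResidueField, inferInstance, hchar, χ,
    fun m => if h : m ∈ commutator M then f0 (el _ m h) else 0, ?_, ?_, ?_, ⟨g, ?_⟩⟩
  · intro a ha b hb
    simp only [ha, hb, mul_mem ha hb, dif_pos]
    rw [← map_add]
    rfl
  · intro m a ha
    have hc : m * a * m⁻¹ ∈ commutator M := (inferInstance : (commutator M).Normal).conj_mem a ha m
    simp only [ha, hc, dif_pos]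
    rw [hχ, ← hlin]
    congr 1
    have h5 := qq_smul (commutator M) m (by rw [hcen]; trivial) (el _ a ha)
    refine Eq.trans ?_ h5.symm
    apply val_inj
    rw [val_th, val_el, val_el]
  · obtain ⟨a, ha⟩ : ∃ a, f0 a ≠ 0 := by
      by_contra hcon
      push Not at hcon
      exact hne (AddMonoidHom.ext hcon)
    refine ⟨val _ a, val_mem a, ?_⟩
    simp only [val_mem a, dif_pos]
    exact ha
  · intro h
    rw [isOfFinOrder_iff_pow_eq_one] at h
    obtain ⟨m, hm, h⟩ := h
    apply hx1 m hm
    have h2 := congrArg (fun y : (p.asIdeal.ResidueField)ˣ => (y : p.asIdeal.ResidueField)) h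
    simp only [Units.val_pow_eq_pow_val, Units.val_one] at h2
    rw [hχg] at h2
    exact h2

end Pool.Agent.Helper4W
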