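import Pool.Agent.Helper4W.Red
import Pool.Agent.N600.G3.Core
import Pool.Agent.W963.GE.Dob

/-!
# Rates, quotients and virtually nilpotent groups: preparations

Helper4, page MP_d69e80_al.
-/

set_option autoImplicit false

namespace Pool.Agent.Helper4W

open scoped Pointwise commutatorElement
open Subgroup Filter Topology
open Pool.Agent.N600.G3
open Pool.Agent.W963.GE (UnitNotRoot MM base InClass gam)
open Pool.Agent.Helper111.EN.NSc (NS NS_ext NS_of_nilpotent_fg NS_top_iff)

universe u

lemma hM_ge (x : ℂ) (hx : UnitNotRoot x) : min 1 (Real.log (MM x)) / 8 ≤ hM x := by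
  have hM1 := W963.GE.MM_ge x hx.2.1
  have hM0 : 0 < MM x := by linarith
  set t := Real.log (MM x) with ht
  have ht0 : 0 ≤ t := Real.log_nonneg hM1
  -- `log z ≤ z - 1`
  have h1 : (1 - aM x) / 4 ≤ hM x := by
    unfold hM
    have := Real.log_le_sub_one_of_pos (th_pos x)
    linarith
  -- the exponent
  set y := 1 - 1 / MM x ^ 2 with hy
  have hy' : y = 1 - Real.exp (-(2 * t)) := by
    rw [hy]
    congr 1
    rw [Real.exp_neg, two_mul, Real.exp_add, ht, Real.exp_log hM0]
    rw [one_div, sq]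
  have hconv : ∀ s : ℝ, 0 ≤ s → s ≤ 1 → ∀ z : ℝ, Real.exp (-(s * z)) ≤ 1 - s * (1 - Real.exp (-z)) := by
    intro s hs0 hs1 z
    have hc := convexOn_exp.2 (Set.mem_univ (0 : ℝ)) (Set.mem_univ (-z : ℝ))
      (show (0 : ℝ) ≤ 1 - s by linarith) hs0 (by ring)
    simp only [smul_eq_mul, mul_zero, zero_add, Real.exp_zero, mul_one] at hc
    have h2 : s * -z = -(s * z) := by ring
    rw [h2] at hc
    linarith
  have he1 : Real.exp (-1) ≤ 0.37 := by
    have := Real.exp_one_gt_d9
    rw [Real.exp_neg, inv_eq_one_div, div_le_iff₀ (Real.exp_pos 1)]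
    linarith
  have he2 : Real.exp (-2) ≤ 0.1369 := by
    have h3 : Real.exp (-2) = Real.exp (-1) ^ 2 := by
      rw [← Real.exp_nat_mul]; norm_num
    rw [h3]
    have h4 := Real.exp_pos (-1)
    nlinarith
  have hyge : 0.86 * min 1 t ≤ y := by
    rw [hy']
    have hm0 : 0 ≤ min 1 t := le_min zero_le_one ht0
    have h3 := hconv (min 1 t) hm0 (min_le_left _ _) 2
    have h4 : Real.exp (-(2 * t)) ≤ Real.exp (-(min 1 t * 2)) := by
      apply Real.exp_le_exp.2
      have := min_le_right 1 t
      linarith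
    nlinarith
  have hy1 : y ≤ 1 := by
    rw [hy']
    have := Real.exp_pos (-(2 * t))
    linarith
  have hy0 : 0 ≤ y := by
    have hm0 : 0 ≤ min 1 t := le_min zero_le_one ht0
    linarith
  have h5 : aM x ≤ 1 - 0.63 * y := by
    unfold aM
    have h6 := hconv y hy0 hy1 1
    rw [mul_one] at h6
    have h7 : y * (1 - Real.exp (-1)) ≥ 0.63 * y := by nlinarith
    linarith
  have h6 : min 1 t / 2 ≤ 1 - aM x := by
    have hm0 : 0 ≤ min 1 t := le_min zero_le_one ht0
    linarith
  linarith

lemma rho_map_le {G G' : Type*} [Group G] [Group G'] (φ : G →* G') (T : Set G) (hfin : T.Finite)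
    (h1T : 1 ∈ T) : H746UG.rho (φ '' T) ≤ H746UG.rho T := by
  refine le_of_tendsto_of_tendsto' (H746UG.tendsto_rho (φ '' T)) (H746UG.tendsto_rho T) ?_
  intro n
  apply div_le_div_of_nonneg_right _ (Nat.cast_nonneg n)
  have h1 := one_le_card (hfin.image φ) ⟨1, h1T, map_one φ⟩ n
  apply Real.log_le_log
  · exact_mod_cast h1
  · exact_mod_cast card_map_pow φ T hfin n

/-- the growth rate is at least `min (1, log M) / 352` for some unit -/
def Big {G : Type*} [Group G] (T : Set G) : Prop :=
  ∃ x : ℂ, UnitNotRoot x ∧ min 1 (Real.log (MM x)) / 352 ≤ H746UG.rho T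

lemma Big.of_map {G G' : Type*} [Group G] [Group G'] {φ : G →* G'} {T : Set G}
    (h : Big (φ '' T)) (hfin : T.Finite) (h1T : 1 ∈ T) : Big T := by
  obtain ⟨x, hx, h⟩ := h
  exact ⟨x, hx, h.trans (rho_map_le φ T hfin h1T)⟩

lemma big_of_ge {G : Type*} [Group G] {T : Set G} (h : 1 / 352 ≤ H746UG.rho T) : Big T := by
  obtain ⟨y, hy⟩ := W963.GE.exists_unit
  refine ⟨y, hy, le_trans ?_ h⟩
  exact div_le_div_of_nonneg_right (min_le_left _ _) (by norm_num)

lemma big_of_red {G : Type*} [Group G] {T : Set G} {K : ℕ} (hK : 0 < K) {x : ℂ}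
    (hx : UnitNotRoot x)
    (h : ∀ R : ℕ, (K : ℝ) / 2 * R * hM x ≤ Real.log (Nat.card ↥(T ^ (22 * K * R)))) : Big T := by
  refine ⟨x, hx, ?_⟩
  have h1 : Tendsto (fun R : ℕ => Real.log (Nat.card ↥(T ^ (22 * K * R))) / (22 * K * R : ℕ)) atTop
      (𝓝 (H746UG.rho T)) :=
    (H746UG.tendsto_rho T).comp (tendsto_id.const_mul_atTop' (show 0 < 22 * K by omega))
  refine ge_of_tendsto h1 ?_
  filter_upwards [eventually_gt_atTop 0] with R hR
  have hR' : (0 : ℝ) < R := by exact_mod_cast hR
  have hK' : (0 : ℝ) < K := by exact_mod_cast hK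
  have hpos : (0 : ℝ) < ((22 * K * R : ℕ) : ℝ) := by
    push_cast
    positivity
  rw [le_div_iff₀ hpos]
  refine le_trans ?_ (h R)
  have h2 := hM_ge x hx
  push_cast
  have h3 : min 1 (Real.log (MM x)) / 352 * (22 * K * R) =
      (K : ℝ) / 2 * R * (min 1 (Real.log (MM x)) / 8) := by ring
  rw [h3]
  exact mul_le_mul_of_nonneg_left h2 (by positivity)

lemma nil_of_inj {G G' : Type*} [Group G] [Group G'] (φ : G →* G') (hφ : Function.Injective φ)
    (h : Group.IsNilpotent G') : Group.IsNilpotent G := by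
  have := h
  exact Subgroup.isNilpotent_of_ker_le_center φ (by
    rw [(MonoidHom.ker_eq_bot_iff φ).2 hφ]
    exact bot_le)

/-- virtual nilpotence passes to groups that embed -/
lemma vn_of_inj {G G' : Type*} [Group G] [Group G'] (φ : G →* G') (hφ : Function.Injective φ)
    (h : Group.IsVirtuallyNilpotent G') : Group.IsVirtuallyNilpotent G := by
  obtain ⟨N, hN, hf⟩ := h
  refine ⟨N.comap φ, ?_, ?_⟩
  · let ψ : N.comap φ →* N := φ.subgroupComap N
    have hψ : Function.Injective ψ := by
      intro a b hab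
      have h1 : φ a = φ b := congrArg Subtype.val hab
      exact Subtype.ext (hφ h1)
    exact nil_of_inj ψ hψ hN
  · refine ⟨?_⟩
    rw [index_comap]
    have := instFiniteIndex_subgroupOf N φ.range
    exact this.index_ne_zero

lemma vn_of_equiv {G G' : Type*} [Group G] [Group G'] (e : G ≃* G')
    (h : Group.IsVirtuallyNilpotent G') : Group.IsVirtuallyNilpotent G :=
  vn_of_inj e.toMonoidHom e.injective h

/-- groups with nilpotent derived subgroup are in the class -/
lemma inClass_of_nil {G : Type*} [Group G] (h : Group.IsNilpotent (commutator G)) :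
    InClass 1 1 G := by
  refine ⟨⊤, ?_, ?_, Or.inl ?_⟩
  · rw [Subgroup.index_top]; exact one_ne_zero
  · rw [Subgroup.index_top]
  · have h2 : (commutator (⊤ : Subgroup G)).map (⊤ : Subgroup G).subtype ≤ commutator G := by
      rw [commutator_def, commutator_def, Subgroup.map_commutator]
      exact Subgroup.commutator_mono le_top le_top
    let ψ : gam (⊤ : Subgroup G) 1 →* commutator G :=
      { toFun := fun a => ⟨((a : (⊤ : Subgroup G)) : G), h2 ⟨_, a.2, rfl⟩⟩
        map_one' := rfl
        map_mul' := fun _ _ => rfl }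
    have hψ : Function.Injective ψ := by
      intro a b hab
      have h3 : ((a : (⊤ : Subgroup G)) : G) = ((b : (⊤ : Subgroup G)) : G) :=
        congrArg (fun z : commutator G => (z : G)) hab
      exact Subtype.ext (Subtype.ext h3)
    exact nil_of_inj ψ hψ h

/-- the case of a nilpotent derived subgroup -/
lemma nil_case {G : Type u} [Group G] {T : Set G} (hfin : T.Finite) (hgen : closure T = ⊤)
    (h : Group.IsNilpotent (commutator G)) : Group.IsVirtuallyNilpotent G ∨ Big T := by
  rcases W963.GE.main_ineq 1 1 le_rfl G T hfin hgen (inClass_of_nil h) with h1 | ⟨x, hx, h1⟩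
  · exact Or.inl h1
  · right
    refine ⟨x, hx, le_trans ?_ h1⟩
    have h2 := W963.GE.log_base_ge (W963.GE.MM_ge x hx.2.1)
    have h3 : 0 ≤ min 1 (Real.log (MM x)) :=
      le_min zero_le_one (Real.log_nonneg (W963.GE.MM_ge x hx.2.1))
    rw [div_le_div_iff₀ (by norm_num) (by norm_num)]
    norm_num
    linarith

end Pool.Agent.Helper4W
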