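import Mathlib

/-!
# An inequality for random sums with independent multiplicative noise

Helper4, page MP_d69e80_al.
-/

set_option autoImplicit false

namespace Pool.Agent.Helper4W

open Finset

/-- difference of two binary digits -/
def d2 (p : Bool × Bool) : ℤ := (if p.1 then 1 else 0) - (if p.2 then 1 else 0)

/-- a lazy digit: zero if the first bit is false, otherwise the difference of the two others -/
def d3 (p : Bool × Bool × Bool) : ℤ := if p.1 then d2 p.2 else 0

section finite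

variable {Z : Type*} [AddCommGroup Z] [Fintype Z]

omit [Fintype Z] in
lemma char_sum (ψ : AddChar Z ℂ) {ι : Type*} (s : Finset ι) (f : ι → Z) :
    ψ (∑ j ∈ s, f j) = ∏ j ∈ s, ψ (f j) := by
  classical
  induction s using Finset.induction_on with
  | empty => simp
  | insert a s ha ih => rw [Finset.sum_insert ha, Finset.prod_insert ha, AddChar.map_add_eq_mul, ih]

/-- counting zeros of a sum of independent terms by characters -/
lemma count_char {N : ℕ} {B : Type*} [Fintype B] (φ : Fin N → B → Z) [DecidableEq Z] :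
    ((univ.filter fun w : Fin N → B => ∑ j, φ j (w j) = 0).card : ℂ) * Fintype.card Z =
      ∑ ψ : AddChar Z ℂ, ∏ j, ∑ b, ψ (φ j b) := by
  classical
  have h1 : ∀ ψ : AddChar Z ℂ, ∏ j, ∑ b, ψ (φ j b) = ∑ w : Fin N → B, ψ (∑ j, φ j (w j)) := by
    intro ψ
    rw [Finset.prod_univ_sum]
    rw [Fintype.piFinset_univ]
    refine Finset.sum_congr rfl fun w _ => ?_
    exact (char_sum ψ Finset.univ fun j => φ j (w j)).symm
  simp_rw [h1]
  rw [Finset.sum_comm]
  simp_rw [AddChar.sum_apply_eq_ite]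
  rw [Finset.card_filter]
  push_cast
  rw [Finset.sum_mul]
  refine Finset.sum_congr rfl fun w _ => ?_
  split_ifs <;> simp

/-- half of one minus the real part of a character -/
noncomputable def sv (ψ : AddChar Z ℂ) (t : Z) : ℝ := (1 - (ψ t).re) / 2

lemma sv_nonneg (ψ : AddChar Z ℂ) (t : Z) : 0 ≤ sv ψ t := by
  have h : ‖ψ t‖ = 1 := AddChar.norm_apply ψ t
  have h2 := Complex.re_le_norm (ψ t)
  unfold sv
  linarith

lemma sv_le (ψ : AddChar Z ℂ) (t : Z) : sv ψ t ≤ 1 := by
  have h : ‖ψ t‖ = 1 := AddChar.norm_apply ψ t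
  have h2 := Complex.abs_re_le_norm (ψ t)
  have h3 := neg_abs_le (ψ t).re
  unfold sv
  linarith

lemma sum_two (ψ : AddChar Z ℂ) (t : Z) :
    ∑ p : Bool × Bool, ψ (d2 p • t) = ((4 * (1 - sv ψ t) : ℝ) : ℂ) := by
  have h : ψ (-t) = (starRingEnd ℂ) (ψ t) := by
    rw [AddChar.map_neg_eq_conj]
  rw [Fintype.sum_prod_type]
  simp only [Fintype.sum_bool, d2, if_true, Bool.false_eq_true, if_false]
  have e1 : ((1 : ℤ) - 1) • t = 0 := by simp
  have e2 : ((1 : ℤ) - 0) • t = t := by simp
  have e3 : ((0 : ℤ) - 1) • t = -t := by simp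
  have e4 : ((0 : ℤ) - 0) • t = 0 := by simp
  rw [e1, e2, e3, e4, AddChar.map_zero_eq_one, h]
  have h5 : ψ t + (starRingEnd ℂ) (ψ t) = ((2 * (ψ t).re : ℝ) : ℂ) := Complex.add_conj _
  have h6 : (1 : ℂ) + ψ t + ((starRingEnd ℂ) (ψ t) + 1) =
      2 + (ψ t + (starRingEnd ℂ) (ψ t)) := by ring
  rw [h6, h5]
  unfold sv
  push_cast
  ring

lemma sum_three (ψ : AddChar Z ℂ) (t : Z) :
    ∑ p : Bool × Bool × Bool, ψ (d3 p • t) = ((8 * (1 - sv ψ t / 2) : ℝ) : ℂ) := by
  rw [Fintype.sum_prod_type]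
  simp only [Fintype.sum_bool, d3, if_true, Bool.false_eq_true, if_false]
  rw [sum_two]
  simp only [zero_smul, AddChar.map_zero_eq_one]
  rw [Finset.sum_const, Finset.card_univ]
  simp only [Fintype.card_prod, Fintype.card_bool]
  push_cast
  rw [nsmul_eq_mul]
  push_cast
  ring

end finite

/-- the elementary inequality behind the comparison -/
lemma key_ineq {A : Type*} [Fintype A] [Nonempty A] {N : ℕ} (s : A → Fin N → ℝ)
    (h0 : ∀ a j, 0 ≤ s a j) (h1 : ∀ a j, s a j ≤ 1) :
    (∏ j, ∑ a, (1 - s a j)) * Fintype.card A ≤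
      (Fintype.card A : ℝ) ^ N * ∑ a, ∏ j, (1 - s a j / 2) := by
  classical
  have hA : (0 : ℝ) < Fintype.card A := by exact_mod_cast Fintype.card_pos
  -- the mean of s
  set m : Fin N → ℝ := fun j => (∑ a, s a j) / Fintype.card A with hm
  have e1 : ∀ j, ∑ a, (1 - s a j) = Fintype.card A * (1 - m j) := by
    intro j
    rw [Finset.sum_sub_distrib, hm]
    simp only [Finset.sum_const, Finset.card_univ, nsmul_eq_mul, mul_one]
    field_simp
  have e2 : ∏ j, ∑ a, (1 - s a j) = (Fintype.card A : ℝ) ^ N * ∏ j, (1 - m j) := by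
    simp_rw [e1]
    rw [Finset.prod_mul_distrib, Finset.prod_const, Finset.card_univ, Fintype.card_fin]
  have hm0 : ∀ j, m j ≤ 1 := by
    intro j
    rw [hm]
    simp only
    rw [div_le_one hA]
    calc ∑ a, s a j ≤ ∑ _a : A, (1 : ℝ) := Finset.sum_le_sum fun a _ => h1 a j
      _ = Fintype.card A := by simp
  have e3 : ∏ j, (1 - m j) ≤ Real.exp (-∑ j, m j) := by
    rw [← Finset.sum_neg_distrib, Real.exp_sum]
    refine Finset.prod_le_prod (fun j _ => by have := hm0 j; linarith) fun j _ => ?_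
    have := Real.add_one_le_exp (-m j)
    linarith
  have e4 : Real.exp (-∑ j, m j) * Fintype.card A ≤ ∑ a, Real.exp (-∑ j, s a j) := by
    have hconv := convexOn_exp.map_sum_le (t := (Finset.univ : Finset A))
      (w := fun _ => (1 : ℝ) / Fintype.card A) (p := fun a => -∑ j, s a j)
      (fun _ _ => by positivity) (by simp) (fun _ _ => Set.mem_univ _)
    simp only [smul_eq_mul] at hconv
    rw [← Finset.mul_sum, ← Finset.mul_sum] at hconv
    have e5 : (1 : ℝ) / Fintype.card A * ∑ a, -∑ j, s a j = -∑ j, m j := by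
      rw [Finset.sum_neg_distrib, Finset.sum_comm, hm]
      simp only
      rw [← Finset.sum_div]
      ring
    rw [e5] at hconv
    calc Real.exp (-∑ j, m j) * Fintype.card A
        ≤ (1 / Fintype.card A * ∑ a, Real.exp (-∑ j, s a j)) * Fintype.card A :=
          mul_le_mul_of_nonneg_right hconv hA.le
      _ = ∑ a, Real.exp (-∑ j, s a j) := by field_simp
  have e6 : ∀ x : ℝ, 0 ≤ x → x ≤ 1 → Real.exp (-x) ≤ 1 - x / 2 := by
    intro x hx0 hx1
    have hc := convexOn_exp.2 (Set.mem_univ (0 : ℝ)) (Set.mem_univ (-1 : ℝ))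
      (show (0 : ℝ) ≤ 1 - x by linarith) hx0 (by ring)
    simp only [smul_eq_mul, mul_zero, zero_add, Real.exp_zero, mul_one] at hc
    have h2 : x * -1 = -x := by ring
    rw [h2] at hc
    have h3 : Real.exp (-1) ≤ 1 / 2 := by
      rw [Real.exp_neg, inv_eq_one_div]
      apply one_div_le_one_div_of_le (by norm_num)
      have := Real.add_one_le_exp (1 : ℝ)
      linarith
    nlinarith
  have e7 : ∀ a, Real.exp (-∑ j, s a j) ≤ ∏ j, (1 - s a j / 2) := by
    intro a
    rw [← Finset.sum_neg_distrib, Real.exp_sum]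
    exact Finset.prod_le_prod (fun j _ => (Real.exp_pos _).le) fun j _ => e6 _ (h0 a j) (h1 a j)
  rw [e2]
  calc ((Fintype.card A : ℝ) ^ N * ∏ j, (1 - m j)) * Fintype.card A
      ≤ (Fintype.card A : ℝ) ^ N * (Real.exp (-∑ j, m j) * Fintype.card A) := by
        rw [mul_assoc]
        exact mul_le_mul_of_nonneg_left (mul_le_mul_of_nonneg_right e3 hA.le) (by positivity)
    _ ≤ (Fintype.card A : ℝ) ^ N * ∑ a, Real.exp (-∑ j, s a j) :=
        mul_le_mul_of_nonneg_left e4 (by positivity)
    _ ≤ _ := mul_le_mul_of_nonneg_left (Finset.sum_le_sum fun a _ => e7 a) (by positivity)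

/-- the comparison in a finite abelian group -/
theorem ci_finite {Z : Type*} [AddCommGroup Z] [Fintype Z] [DecidableEq Z] {A : Type*} [Fintype A]
    [Nonempty A] {N : ℕ} (t : A → Fin N → Z) :
    ((univ.filter fun w : Fin N → A × (Bool × Bool) =>
        ∑ j, d2 (w j).2 • t (w j).1 j = 0).card : ℝ) * (Fintype.card A * 8 ^ N) ≤
      (Fintype.card A : ℝ) ^ N * 4 ^ N *
        ∑ a, ((univ.filter fun w : Fin N → Bool × Bool × Bool =>
          ∑ j, d3 (w j) • t a j = 0).card : ℝ) := by
  have hZ : (0 : ℝ) < Fintype.card Z := by exact_mod_cast Fintype.card_pos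
  have hA : (0 : ℝ) < Fintype.card A := by exact_mod_cast Fintype.card_pos
  -- left hand side
  have hL : ((univ.filter fun w : Fin N → A × (Bool × Bool) =>
        ∑ j, d2 (w j).2 • t (w j).1 j = 0).card : ℝ) * Fintype.card Z =
      ∑ ψ : AddChar Z ℂ, ∏ j, ∑ a, 4 * (1 - sv ψ (t a j)) := by
    have h := count_char (fun (j : Fin N) (b : A × (Bool × Bool)) => d2 b.2 • t b.1 j)
    have h2 : ∀ ψ : AddChar Z ℂ, ∏ j : Fin N, ∑ b : A × (Bool × Bool), ψ (d2 b.2 • t b.1 j) =
        ((∏ j, ∑ a, 4 * (1 - sv ψ (t a j)) : ℝ) : ℂ) := by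
      intro ψ
      push_cast
      refine Finset.prod_congr rfl fun j _ => ?_
      rw [Fintype.sum_prod_type]
      refine Finset.sum_congr rfl fun a _ => ?_
      have := sum_two ψ (t a j)
      simp only at this ⊢
      rw [this]
      push_cast
      ring
    simp_rw [h2] at h
    exact_mod_cast h
  have hR : ∀ a, ((univ.filter fun w : Fin N → Bool × Bool × Bool =>
        ∑ j, d3 (w j) • t a j = 0).card : ℝ) * Fintype.card Z =
      ∑ ψ : AddChar Z ℂ, ∏ j, 8 * (1 - sv ψ (t a j) / 2) := by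
    intro a
    have h := count_char (fun (j : Fin N) (b : Bool × Bool × Bool) => d3 b • t a j)
    have h2 : ∀ ψ : AddChar Z ℂ, ∏ j : Fin N, ∑ b : Bool × Bool × Bool, ψ (d3 b • t a j) =
        ((∏ j, 8 * (1 - sv ψ (t a j) / 2) : ℝ) : ℂ) := by
      intro ψ
      push_cast
      refine Finset.prod_congr rfl fun j _ => ?_
      rw [sum_three]
      push_cast
      ring
    simp_rw [h2] at h
    exact_mod_cast h
  rw [← mul_le_mul_iff_of_pos_right hZ]
  have eL : ((univ.filter fun w : Fin N → A × (Bool × Bool) =>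
        ∑ j, d2 (w j).2 • t (w j).1 j = 0).card : ℝ) * (Fintype.card A * 8 ^ N) *
        Fintype.card Z = (Fintype.card A * 8 ^ N) *
          ∑ ψ : AddChar Z ℂ, ∏ j, ∑ a, 4 * (1 - sv ψ (t a j)) := by
    rw [← hL]; ring
  have eR : (Fintype.card A : ℝ) ^ N * 4 ^ N *
        (∑ a, ((univ.filter fun w : Fin N → Bool × Bool × Bool =>
          ∑ j, d3 (w j) • t a j = 0).card : ℝ)) * Fintype.card Z =
      (Fintype.card A : ℝ) ^ N * 4 ^ N * ∑ ψ : AddChar Z ℂ, ∑ a, ∏ j,
        8 * (1 - sv ψ (t a j) / 2) := by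
    rw [mul_assoc, Finset.sum_mul, Finset.sum_comm]
    congr 1
    exact Finset.sum_congr rfl fun a _ => hR a
  rw [eL, eR, Finset.mul_sum, Finset.mul_sum]
  refine Finset.sum_le_sum fun ψ _ => ?_
  have hk := key_ineq (fun a j => sv ψ (t a j)) (fun a j => sv_nonneg ψ _) (fun a j => sv_le ψ _)
  have f1 : ∏ j, ∑ a, 4 * (1 - sv ψ (t a j)) = 4 ^ N * ∏ j, ∑ a, (1 - sv ψ (t a j)) := by
    simp_rw [← Finset.mul_sum]
    rw [Finset.prod_mul_distrib, Finset.prod_const, Finset.card_univ, Fintype.card_fin]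
  have f2 : ∀ a, ∏ j, 8 * (1 - sv ψ (t a j) / 2) = 8 ^ N * ∏ j, (1 - sv ψ (t a j) / 2) := by
    intro a
    rw [Finset.prod_mul_distrib, Finset.prod_const, Finset.card_univ, Fintype.card_fin]
  simp_rw [f2]
  rw [f1, ← Finset.mul_sum]
  calc (Fintype.card A : ℝ) * 8 ^ N * (4 ^ N * ∏ j, ∑ a, (1 - sv ψ (t a j)))
      = 8 ^ N * 4 ^ N * ((∏ j, ∑ a, (1 - sv ψ (t a j))) * Fintype.card A) := by ring
    _ ≤ 8 ^ N * 4 ^ N * ((Fintype.card A : ℝ) ^ N * ∑ a, ∏ j, (1 - sv ψ (t a j) / 2)) :=
        mul_le_mul_of_nonneg_left hk (by positivity)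
    _ = _ := by ring

/-- finitely many elements of a lattice can be told from zero in a finite quotient -/
lemma sep {L : Type*} [AddCommGroup L] [Module.Free ℤ L] [Module.Finite ℤ L] (E : Finset L) :
    ∃ (Z : Type) (_ : AddCommGroup Z) (_ : Fintype Z) (π : L →+ Z), ∀ e ∈ E, π e = 0 → e = 0 := by
  classical
  let b := Module.finBasis ℤ L
  set n : ℕ := 1 + ∑ e ∈ E, ∑ i, (b.repr e i).natAbs with hn
  have hnpos : 0 < n := by omega
  have : NeZero n := ⟨hnpos.ne'⟩
  let π : L →+ (Fin (Module.finrank ℤ L) → ZMod n) :=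
    { toFun := fun e i => ((b.repr e i : ℤ) : ZMod n)
      map_zero' := by funext i; simp
      map_add' := by intro x y; funext i; simp }
  refine ⟨Fin (Module.finrank ℤ L) → ZMod n, inferInstance, inferInstance, π, ?_⟩
  intro e he h0
  have h1 : ∀ i, b.repr e i = 0 := by
    intro i
    have h2 : ((b.repr e i : ℤ) : ZMod n) = 0 := congrFun h0 i
    rw [ZMod.intCast_zmod_eq_zero_iff_dvd] at h2
    have h3 : (b.repr e i).natAbs < n := by
      have h4 : (b.repr e i).natAbs ≤ ∑ i, (b.repr e i).natAbs :=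
        Finset.single_le_sum (f := fun i => (b.repr e i).natAbs) (fun _ _ => Nat.zero_le _)
          (Finset.mem_univ i)
      have h5 : ∑ i, (b.repr e i).natAbs ≤ ∑ e ∈ E, ∑ i, (b.repr e i).natAbs :=
        Finset.single_le_sum (f := fun e => ∑ i, (b.repr e i).natAbs) (fun _ _ => Nat.zero_le _) he
      omega
    have h6 := Int.natAbs_dvd_natAbs.2 h2
    rw [Int.natAbs_natCast] at h6
    have h7 := Nat.eq_zero_of_dvd_of_lt h6 h3
    exact Int.natAbs_eq_zero.1 h7
  have h8 : b.repr e = 0 := by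
    ext i
    exact h1 i
  exact (LinearEquiv.map_eq_zero_iff b.repr).1 h8

theorem ci_free {Z : Type*} [AddCommGroup Z] [DecidableEq Z] [Module.Free ℤ Z] [Module.Finite ℤ Z]
    {A : Type*} [Fintype A] [Nonempty A] {N : ℕ} (t : A → Fin N → Z) :
    ((univ.filter fun w : Fin N → A × (Bool × Bool) =>
        ∑ j, d2 (w j).2 • t (w j).1 j = 0).card : ℝ) * (Fintype.card A * 8 ^ N) ≤
      (Fintype.card A : ℝ) ^ N * 4 ^ N *
        ∑ a, ((univ.filter fun w : Fin N → Bool × Bool × Bool =>
          ∑ j, d3 (w j) • t a j = 0).card : ℝ) := by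
  classical
  obtain ⟨Y, iY, fY, π, hπ⟩ := sep
    ((univ.image fun w : Fin N → A × (Bool × Bool) => ∑ j, d2 (w j).2 • t (w j).1 j) ∪
      (univ.image fun w : A × (Fin N → Bool × Bool × Bool) => ∑ j, d3 (w.2 j) • t w.1 j))
  have h := ci_finite (fun a j => π (t a j))
  have h1 : (univ.filter fun w : Fin N → A × (Bool × Bool) =>
        ∑ j, d2 (w j).2 • t (w j).1 j = 0) =
      (univ.filter fun w : Fin N → A × (Bool × Bool) =>
        ∑ j, d2 (w j).2 • π (t (w j).1 j) = 0) := by
    ext w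
    simp only [Finset.mem_filter, Finset.mem_univ, true_and]
    have e : ∑ j, d2 (w j).2 • π (t (w j).1 j) = π (∑ j, d2 (w j).2 • t (w j).1 j) := by
      rw [map_sum]
      exact Finset.sum_congr rfl fun j _ => (map_zsmul π _ _).symm
    rw [e]
    constructor
    · intro h0; rw [h0, map_zero]
    · intro h0
      refine hπ _ ?_ h0
      exact Finset.mem_union_left _ (Finset.mem_image_of_mem _ (Finset.mem_univ w))
  have h2 : ∀ a, (univ.filter fun w : Fin N → Bool × Bool × Bool =>
          ∑ j, d3 (w j) • t a j = 0) =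
      (univ.filter fun w : Fin N → Bool × Bool × Bool =>
          ∑ j, d3 (w j) • π (t a j) = 0) := by
    intro a
    ext w
    simp only [Finset.mem_filter, Finset.mem_univ, true_and]
    have e : ∑ j, d3 (w j) • π (t a j) = π (∑ j, d3 (w j) • t a j) := by
      rw [map_sum]
      exact Finset.sum_congr rfl fun j _ => (map_zsmul π _ _).symm
    rw [e]
    constructor
    · intro h0; rw [h0, map_zero]
    · intro h0
      refine hπ _ ?_ h0
      exact Finset.mem_union_right _ (Finset.mem_image.2 ⟨(a, w), Finset.mem_univ _, rfl⟩)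
  rw [h1]
  simp_rw [h2]
  exact h

/-- the comparison in a torsion-free abelian group -/
theorem ci_main {Z : Type*} [AddCommGroup Z] [DecidableEq Z] [Module.IsTorsionFree ℤ Z]
    {A : Type*} [Fintype A] [Nonempty A] {N : ℕ} (t : A → Fin N → Z) :
    ((univ.filter fun w : Fin N → A × (Bool × Bool) =>
        ∑ j, d2 (w j).2 • t (w j).1 j = 0).card : ℝ) * (Fintype.card A * 8 ^ N) ≤
      (Fintype.card A : ℝ) ^ N * 4 ^ N *
        ∑ a, ((univ.filter fun w : Fin N → Bool × Bool × Bool =>
          ∑ j, d3 (w j) • t a j = 0).card : ℝ) := by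
  classical
  let L : Submodule ℤ Z := Submodule.span ℤ (Set.range fun p : A × Fin N => t p.1 p.2)
  have hfin : Module.Finite ℤ L := Module.Finite.span_of_finite ℤ (Set.finite_range _)
  have hfree : Module.Free ℤ L := inferInstance
  let t' : A → Fin N → L := fun a j => ⟨t a j, Submodule.subset_span ⟨(a, j), rfl⟩⟩
  have h := ci_free t'
  have h1 : (univ.filter fun w : Fin N → A × (Bool × Bool) =>
        ∑ j, d2 (w j).2 • t (w j).1 j = 0) =
      (univ.filter fun w : Fin N → A × (Bool × Bool) =>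
        ∑ j, d2 (w j).2 • t' (w j).1 j = 0) := by
    ext w
    simp only [Finset.mem_filter, Finset.mem_univ, true_and]
    rw [← Submodule.coe_eq_zero]
    simp [t']
  have h2 : ∀ a, (univ.filter fun w : Fin N → Bool × Bool × Bool =>
          ∑ j, d3 (w j) • t a j = 0) =
      (univ.filter fun w : Fin N → Bool × Bool × Bool =>
          ∑ j, d3 (w j) • t' a j = 0) := by
    intro a
    ext w
    simp only [Finset.mem_filter, Finset.mem_univ, true_and]
    rw [← Submodule.coe_eq_zero]
    simp [t']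
  rw [h1]
  simp_rw [h2]
  exact h

end Pool.Agent.Helper4W
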