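import Pool.Agent.N499.G3.EPS

/-!
# Half of the characters can be made nontorsion at the same time

Helper4, page MP_d69e80_al (after helper499).
-/

set_option autoImplicit false

namespace Pool.Agent.Helper4W

open Pool.Agent.N600.G3 Pool.Agent.N499.G3

universe u

theorem eps_gen (M : Type*) [Group M] (Γ : Type*) [CommMonoid Γ] (K : ℕ)
    (w : Fin K → M →* Γ) (c : Fin K → M) (hc : ∀ i, w i (c i) ≠ 1) :
    ∃ ε : Fin K → Bool, K ≤ 2 * (Set.ncard {k : Fin K | w k (AA c ε) ≠ 1}) := by
  classical
  by_contra hcon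
  push Not at hcon
  -- the number of good signs for one index
  have h1 : ∀ k : Fin K, 2 ^ K ≤ 2 * (Finset.univ.filter
      fun ε : Fin K → Bool => w k (AA c ε) ≠ 1).card := by
    intro k
    have h2 := Finset.card_filter_add_card_filter_not (s := (Finset.univ : Finset (Fin K → Bool)))
      (fun ε : Fin K → Bool => w k (AA c ε) = 1)
    have h3 : (Finset.univ.filter fun ε : Fin K → Bool => w k (AA c ε) = 1).card ≤
        (Finset.univ.filter fun ε : Fin K → Bool => w k (AA c ε) ≠ 1).card := by
      refine Finset.card_le_card_of_injOn (fun ε => Function.update ε k (!ε k)) ?_ ?_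
      · intro ε hε
        have h4 : w k (AA c ε) = 1 := by simpa using hε
        have h5 := flip_ne (w k) c k (hc k) ε h4
        simpa using h5
      · intro a _ b _ hab
        funext j
        have h4 := congrFun hab j
        by_cases hj : j = k
        · subst hj
          simpa using h4
        · simpa [Function.update_of_ne hj] using h4
    have h4 : (Finset.univ : Finset (Fin K → Bool)).card = 2 ^ K := by
      rw [Finset.card_univ]
      simp
    have h5 : (Finset.univ.filter fun ε : Fin K → Bool => ¬ w k (AA c ε) = 1) =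
      (Finset.univ.filter fun ε : Fin K → Bool => w k (AA c ε) ≠ 1) := rfl
    rw [h5] at h2
    omega
  have h6 : ∑ ε : Fin K → Bool, (Finset.univ.filter fun k : Fin K => w k (AA c ε) ≠ 1).card =
      ∑ k : Fin K, (Finset.univ.filter fun ε : Fin K → Bool => w k (AA c ε) ≠ 1).card := by
    simp only [Finset.card_filter]
    exact Finset.sum_comm
  have h7 : K * 2 ^ K ≤ 2 * ∑ k : Fin K,
      (Finset.univ.filter fun ε : Fin K → Bool => w k (AA c ε) ≠ 1).card := by
    rw [Finset.mul_sum]
    calc K * 2 ^ K = ∑ _k : Fin K, 2 ^ K := by simp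
      _ ≤ _ := Finset.sum_le_sum fun k _ => h1 k
  have h8 : 2 * ∑ ε : Fin K → Bool,
      (Finset.univ.filter fun k : Fin K => w k (AA c ε) ≠ 1).card < K * 2 ^ K := by
    rw [Finset.mul_sum]
    calc ∑ ε : Fin K → Bool, 2 * (Finset.univ.filter fun k : Fin K => w k (AA c ε) ≠ 1).card
        < ∑ _ε : Fin K → Bool, K := by
          refine Finset.sum_lt_sum_of_nonempty Finset.univ_nonempty fun ε _ => ?_
          have h9 := hcon ε
          rwa [Set.ncard_eq_toFinset_card', Set.toFinset_ofPred] at h9
      _ = K * 2 ^ K := by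
          rw [Finset.sum_const, Finset.card_univ]
          simp [mul_comm]
  rw [h6] at h8
  exact absurd h7 (not_le.mpr h8)

theorem eps_torsion (M : Type*) [Group M] (Γ : Type*) [CommGroup Γ] (K : ℕ)
    (w : Fin K → M →* Γ) (c : Fin K → M) (hc : ∀ i, ¬ IsOfFinOrder (w i (c i))) :
    ∃ ε : Fin K → Bool, K ≤ 2 * (Set.ncard {k : Fin K | ¬ IsOfFinOrder (w k (AA c ε))}) := by
  have key : ∀ g : Γ, (QuotientGroup.mk' (CommGroup.torsion Γ)) g ≠ 1 ↔ ¬ IsOfFinOrder g := by
    intro g
    rw [not_iff_not]
    exact QuotientGroup.eq_one_iff g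
  obtain ⟨ε, hε⟩ := eps_gen M (Γ ⧸ CommGroup.torsion Γ) K
    (fun k => (QuotientGroup.mk' (CommGroup.torsion Γ)).comp (w k)) c (fun i => (key _).2 (hc i))
  refine ⟨ε, ?_⟩
  have e : {k : Fin K | ((QuotientGroup.mk' (CommGroup.torsion Γ)).comp (w k)) (AA c ε) ≠ 1} =
      {k : Fin K | ¬ IsOfFinOrder (w k (AA c ε))} := by
    ext k
    exact key _
  rw [← e]
  exact hε

end Pool.Agent.Helper4W
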