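import Pool.Agent.Helper4W.Base
import Pool.Agent.H648R4.Nilp

/-!
# The dichotomy

Helper4, page MP_d69e80_al.
-/

set_option autoImplicit false

namespace Pool.Agent.Helper4W

open scoped Pointwise commutatorElement
open Subgroup Filter Topology
open Pool.Agent.N600.G3
open Pool.Agent.W963.GE (UnitNotRoot MM base InClass gam)
open Pool.Agent.Helper111.EN.NSc (NS NS_ext NS_of_nilpotent_fg NS_top_iff fg_map_subtype_iff)

universe u

lemma derived_two {G : Type*} [Group G] :
    derivedSeries G 2 = ⁅commutator G, commutator G⁆ := by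
  rw [derivedSeries_succ, derivedSeries_succ, derivedSeries_zero]
  rfl

lemma nil_of_derived_two {G : Type*} [Group G] (h : derivedSeries G 2 = ⊥) :
    Group.IsNilpotent (commutator G) := by
  have hab : ∀ a b : commutator G, a * b = b * a := by
    intro a b
    have h4 : ⁅(a : G), (b : G)⁆ ∈ derivedSeries G 2 := by
      rw [derived_two]
      exact Subgroup.commutator_mem_commutator a.2 b.2
    rw [h, Subgroup.mem_bot, commutatorElement_eq_one_iff_mul_comm] at h4
    exact Subtype.ext h4
  let _ : CommGroup (commutator G) :=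
    { (inferInstance : Group (commutator G)) with mul_comm := hab }
  exact CommGroup.isNilpotent

lemma derived_quot {G : Type*} [Group G] (n : ℕ) :
    derivedSeries (G ⧸ derivedSeries G n) n = ⊥ := by
  rw [← map_derivedSeries_eq (QuotientGroup.mk'_surjective (derivedSeries G n)) n, eq_bot_iff]
  rintro _ ⟨x, hx, rfl⟩
  rw [Subgroup.mem_bot]
  exact (QuotientGroup.eq_one_iff x).2 hx

lemma abel_of_derived_three {G : Type*} [Group G] (h : derivedSeries G 3 = ⊥) :
    ∀ x ∈ commutator (commutator G), ∀ y ∈ commutator (commutator G), x * y = y * x := by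
  intro x hx y hy
  have hx' : (x : G) ∈ ⁅commutator G, commutator G⁆ := by
    rw [← map_subtype_commutator]; exact ⟨x, hx, rfl⟩
  have hy' : (y : G) ∈ ⁅commutator G, commutator G⁆ := by
    rw [← map_subtype_commutator]; exact ⟨y, hy, rfl⟩
  have h1 : ⁅(x : G), (y : G)⁆ ∈ derivedSeries G 3 := by
    rw [derived_three]
    exact commutator_mem_commutator hx' hy'
  rw [h, Subgroup.mem_bot, commutatorElement_eq_one_iff_mul_comm] at h1
  exact Subtype.ext h1

/-- the derived subgroup for `G''' = 1` -/
theorem vn_derived {G : Type u} [Group G] (T : Set G) (hfin : T.Finite) (h1T : 1 ∈ T)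
    (hinv : T⁻¹ = T) (hgen : closure T = ⊤) (hNS : NS (⊤ : Subgroup G))
    (h3 : derivedSeries G 3 = ⊥) (hB : ¬ Big T) : Group.IsVirtuallyNilpotent (commutator G) := by
  by_contra hnv
  have hFG : (commutator G).FG := hNS _ le_top
  have hfg : (commutator (commutator G)).FG := by
    rw [← fg_map_subtype_iff]
    exact hNS _ le_top
  obtain ⟨K, hK, x, hx, h⟩ := reduc G T hfin h1T hinv hgen hFG (abel_of_derived_three h3) hfg hnv
  exact hB (big_of_red hK hx h)

/-- P. Hall's criterion for the derived subgroup -/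
theorem vn_hall {G : Type u} [Group G]
    (h : Group.IsVirtuallyNilpotent (commutator (G ⧸ derivedSeries G 3)))
    (hnil : Group.IsNilpotent (derivedSeries G 2)) :
    Group.IsVirtuallyNilpotent (commutator G) := by
  set M := commutator G with hM
  have hmap : (commutator M).map M.subtype = derivedSeries G 2 := by
    rw [derived_two]
    exact map_subtype_commutator _
  have hmap3 : (⁅commutator M, commutator M⁆).map M.subtype = derivedSeries G 3 := by
    rw [Subgroup.map_commutator, hmap, ← derivedSeries_succ]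
  have hn : Group.IsNilpotent (commutator M) := by
    let ψ : commutator M →* derivedSeries G 2 :=
      { toFun := fun a => ⟨((a : M) : G), by rw [← hmap]; exact ⟨a, a.2, rfl⟩⟩
        map_one' := rfl
        map_mul' := fun _ _ => rfl }
    refine nil_of_inj ψ ?_ hnil
    intro a b hab
    have h3 : ((a : M) : G) = ((b : M) : G) :=
      congrArg (fun z : derivedSeries G 2 => (z : G)) hab
    exact Subtype.ext (Subtype.ext h3)
  obtain ⟨k, hk⟩ := (commutator M).isNilpotent_iff_lowerCentralSeries.1 hn
  let π : G →* G ⧸ derivedSeries G 3 := QuotientGroup.mk' (derivedSeries G 3)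
  have hπc : ∀ m : M, π (m : G) ∈ commutator (G ⧸ derivedSeries G 3) := by
    intro m
    have h1 : (commutator G).map π ≤ commutator (G ⧸ derivedSeries G 3) := by
      rw [_root_.commutator_def, _root_.commutator_def, map_commutator]
      exact commutator_mono le_top le_top
    exact h1 ⟨m, m.2, rfl⟩
  let ψ : M →* commutator (G ⧸ derivedSeries G 3) :=
    { toFun := fun m => ⟨π (m : G), hπc m⟩
      map_one' := by
        apply Subtype.ext
        show π ((1 : M) : G) = 1
        rw [OneMemClass.coe_one, map_one]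
      map_mul' := by
        intro a b
        apply Subtype.ext
        show π ((a * b : M) : G) = π a * π b
        rw [← map_mul]; rfl }
  have hker : ψ.ker = ⁅commutator M, commutator M⁆ := by
    ext m
    rw [MonoidHom.mem_ker]
    constructor
    · intro h1
      have h2 : π (m : G) = 1 := congrArg (fun z : commutator (G ⧸ derivedSeries G 3) =>
        (z : G ⧸ derivedSeries G 3)) h1
      have h3 : (m : G) ∈ derivedSeries G 3 := (QuotientGroup.eq_one_iff _).1 h2
      rw [← hmap3] at h3
      obtain ⟨m', hm', he⟩ := h3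
      have : m' = m := Subtype.ext he
      rw [← this]
      exact hm'
    · intro h1
      apply Subtype.ext
      show π (m : G) = 1
      apply (QuotientGroup.eq_one_iff _).2
      rw [← hmap3]
      exact ⟨m, h1, rfl⟩
  have hv : Group.IsVirtuallyNilpotent (M ⧸ ⁅commutator M, commutator M⁆) := by
    refine vn_of_inj (QuotientGroup.lift ⁅commutator M, commutator M⁆ ψ (by
      intro a ha
      rw [← hker] at ha
      exact ha)) ?_ h
    rw [← MonoidHom.ker_eq_bot_iff, eq_bot_iff]
    intro a ha
    obtain ⟨a, rfl⟩ := QuotientGroup.mk_surjective a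
    rw [MonoidHom.mem_ker] at ha
    have h1 : ψ a = 1 := ha
    rw [← MonoidHom.mem_ker, hker] at h1
    rw [Subgroup.mem_bot]
    exact (QuotientGroup.eq_one_iff _).2 h1
  obtain ⟨N, hN1, hN2⟩ := hv
  obtain ⟨H, hH1, hH2⟩ := H648R4.virt_of_quot hk ⟨N, hN2, hN1⟩
  exact ⟨H, hH2, hH1⟩

/-- the second alternative -/
def Alt (G : Type*) [Group G] : Prop :=
  NS (⊤ : Subgroup (G ⧸ derivedSeries G 3)) ∧
    Group.IsVirtuallyNilpotent (G ⧸ derivedSeries G 2) ∧
    Group.IsVirtuallyNilpotent (commutator (G ⧸ derivedSeries G 3)) ∧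
    (Group.IsNilpotent (commutator (G ⧸ derivedSeries G 3)) →
      Group.IsVirtuallyNilpotent (G ⧸ derivedSeries G 3)) ∧
    (Group.IsNilpotent (derivedSeries G 2) →
      NS (⊤ : Subgroup G) ∧ Group.IsVirtuallyNilpotent (commutator G)) ∧
    (Group.IsNilpotent (commutator G) → Group.IsVirtuallyNilpotent G)

theorem core {G : Type u} [Group G] (T : Set G) (hfin : T.Finite) (h1T : 1 ∈ T)
    (hinv : T⁻¹ = T) (hgen : closure T = ⊤) : Big T ∨ Alt G := by
  by_cases hB : Big T
  · exact Or.inl hB
  right
  have hquot : ∀ n : ℕ, ∃ T' : Set (G ⧸ derivedSeries G n), T'.Finite ∧ 1 ∈ T' ∧ T'⁻¹ = T' ∧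
      closure T' = ⊤ ∧ ¬ Big T' := by
    intro n
    let π : G →* G ⧸ derivedSeries G n := QuotientGroup.mk' (derivedSeries G n)
    have hπ : Function.Surjective π := QuotientGroup.mk'_surjective _
    refine ⟨π '' T, hfin.image π, ⟨1, h1T, map_one π⟩, ?_, ?_, ?_⟩
    · rw [← Set.image_inv, hinv]
    · rw [← MonoidHom.map_closure, hgen, ← MonoidHom.range_eq_map]
      exact MonoidHom.range_eq_top.2 hπ
    · exact fun h => hB (h.of_map hfin h1T)
  have hmain : NS (⊤ : Subgroup (G ⧸ derivedSeries G 3)) ∧
      (Group.IsNilpotent (derivedSeries G 2) → NS (⊤ : Subgroup G)) := by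
    rcases N600.G3.main T hfin h1T hinv hgen with h | h
    · exfalso
      apply hB
      apply big_of_ge
      refine le_trans ?_ (rho_ge_88 T h)
      have := Real.log_two_gt_d9
      rw [div_le_div_iff₀ (by norm_num) (by norm_num)]
      linarith
    · exact h
  obtain ⟨hNS, hNS'⟩ := hmain
  obtain ⟨T3, hfin3, h1T3, hinv3, hgen3, hB3⟩ := hquot 3
  obtain ⟨T2, hfin2, h1T2, hinv2, hgen2, hB2⟩ := hquot 2
  have hder : Group.IsVirtuallyNilpotent (commutator (G ⧸ derivedSeries G 3)) :=
    vn_derived T3 hfin3 h1T3 hinv3 hgen3 hNS (derived_quot 3) hB3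
  refine ⟨hNS, ?_, hder, ?_, ?_, ?_⟩
  · exact (nil_case hfin2 hgen2 (nil_of_derived_two (derived_quot 2))).resolve_right hB2
  · exact fun h => (nil_case hfin3 hgen3 h).resolve_right hB3
  · exact fun h => ⟨hNS' h, vn_hall hder h⟩
  · exact fun h => (nil_case hfin hgen h).resolve_right hB

/-- the second alternative for a subgroup of finite index -/
theorem final {G : Type u} [Group G] (S : Set G) (hfin : S.Finite) (hsym : S⁻¹ = S)
    (hgen : closure S = ⊤) (H : Subgroup G) (d : ℕ) (hH : H.index ≠ 0) (hd : H.index ≤ d) :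
    (∃ x : ℂ, UnitNotRoot x ∧
      min 1 (Real.log (MM x)) / (352 * (2 * d - 1)) ≤ H746UG.rho S) ∨ Alt H := by
  have hd1 : 1 ≤ d := by omega
  have hpos : (0 : ℝ) < 2 * d - 1 := by
    have : (1 : ℝ) ≤ d := by exact_mod_cast hd1
    linarith
  rcases S.eq_empty_or_nonempty with hS | hne
  · right
    have htriv : ∀ x : G, x = 1 := by
      intro x
      have hx : x ∈ closure S := by rw [hgen]; exact mem_top x
      rw [hS, Subgroup.closure_empty, Subgroup.mem_bot] at hx
      exact hx
    have hs : Subsingleton G := ⟨fun a b => by rw [htriv a, htriv b]⟩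
    have hsH : Subsingleton H := inferInstance
    have hns : ∀ (Q : Type u) [Group Q] [Subsingleton Q], NS (⊤ : Subgroup Q) := by
      intro Q _ _ K _
      exact (Subgroup.fg_iff _).2 ⟨∅, Subsingleton.elim _ _, Set.finite_empty⟩
    have hvn : ∀ (Q : Type u) [Group Q] [Subsingleton Q], Group.IsVirtuallyNilpotent Q := by
      intro Q _ _
      refine ⟨⊤, ?_, inferInstance⟩
      exact Group.isNilpotent_of_subsingleton
    refine ⟨hns _, hvn _, hvn _, fun _ => hvn _, fun _ => ⟨hns _, hvn _⟩, fun _ => hvn _⟩
  set T := W963.GE.TT S H d with hT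
  have hTfin : T.Finite := W963.GE.TT_finite S hfin H d
  have hTgen : closure T = ⊤ := W963.GE.TT_gen S hgen H hH hd
  have h1T : (1 : H) ∈ T := by
    show ((1 : H) : G) ∈ (insert 1 S) ^ (2 * d - 1)
    have : (1 : G) ∈ insert 1 S := Set.mem_insert _ _
    simpa using Set.pow_mem_pow (n := 2 * d - 1) this
  have hinv1 : (insert 1 S)⁻¹ = insert 1 S := by
    rw [Set.inv_insert, inv_one, hsym]
  have hTinv : T⁻¹ = T := by
    ext x
    rw [Set.mem_inv]
    constructor
    · intro hx
      have := inv_mem_pow hinv1 (show ((x⁻¹ : H) : G) ∈ (insert 1 S) ^ (2 * d - 1) from hx)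
      rw [← coe_inv, inv_inv] at this
      exact this
    · intro hx
      exact inv_mem_pow hinv1 (show (x : G) ∈ (insert 1 S) ^ (2 * d - 1) from hx)
  rcases core T hTfin h1T hTinv hTgen with ⟨x, hx, h⟩ | h
  · left
    refine ⟨x, hx, ?_⟩
    have h4 := W963.GE.rho_TT S hfin hne H hd1
    have he : ((2 * d - 1 : ℕ) : ℝ) = 2 * d - 1 := by
      rw [Nat.cast_sub (by omega)]; push_cast; ring
    rw [he] at h4
    have h5 := h.trans h4
    rw [← div_div, div_le_iff₀ hpos, mul_comm (H746UG.rho S)]
    exact h5
  · exact Or.inr h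

end Pool.Agent.Helper4W
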