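import Pool.Agent.Helper4W.CI
import Pool.Agent.W963.GE.Final

/-!
# Zero sums of lazy digits in terms of the Mahler measure

Helper4, page MP_d69e80_al.
-/

set_option autoImplicit false
set_option linter.unusedSectionVars false

namespace Pool.Agent.Helper4W

open Finset Polynomial
open Pool.Agent.W963.GE

/-- a lazy digit as a difference of two binary digits -/
def red (p : Bool × Bool × Bool) : Bool × Bool := if p.1 then p.2 else (true, true)

lemma dd_red (p : Bool × Bool × Bool) : dd (red p) = (d3 p : ℝ) := by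
  obtain ⟨a, b, c⟩ := p
  unfold dd red d3 d2
  cases a <;> cases b <;> cases c <;> simp

section

variable {ι : Type*} [Fintype ι] [DecidableEq ι]

lemma step3 (x : ι → ℂ) (hinj : Function.Injective x) (hx : ∀ i, 1 < ‖x i‖) {n : ℕ}
    (g : Fin n → Bool × Bool) :
    ∑ a : Bool × Bool × Bool,
      Real.exp (-(NN x (SS x (Fin.cons (red a) g : Fin (n + 1) → Bool × Bool)) / M2 x)) ≤
      2 * (3 + al x) * Real.exp (-(NN x (SS x g) / M2 x)) := by
  have hM := M2_pos x hx
  rw [Fintype.sum_prod_type]
  simp only [Fintype.sum_bool, red, if_true, Bool.false_eq_true, if_false]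
  have h1 := step x hinj hx g
  have h2 : NN x (SS x g) ≤ NN x (SS x (Fin.cons (true, true) g : Fin (n + 1) → Bool × Bool)) := by
    rw [SS_cons]
    have e : ((fun j => x j * SS x g j) + fun _ => ((dd (true, true) : ℝ) : ℂ)) =
        (fun j => x j * SS x g j) := by
      funext j
      simp [dd]
    rw [e, NN_step x hinj hx]
    have : 0 ≤ ‖be x fun i => x i * SS x g i‖ ^ 2 / M2 x := by positivity
    linarith
  have h3 : Real.exp (-(NN x (SS x (Fin.cons (true, true) g : Fin (n + 1) → Bool × Bool)) / M2 x)) ≤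
      Real.exp (-(NN x (SS x g) / M2 x)) := by
    apply Real.exp_le_exp.2
    have := div_le_div_of_nonneg_right h2 hM.le
    linarith
  rw [Finset.sum_const, Finset.card_univ]
  simp only [Fintype.card_prod, Fintype.card_bool, nsmul_eq_mul]
  push_cast
  have h4 : ∑ p : Bool × Bool, Real.exp (-(NN x (SS x (Fin.cons p g : Fin (n + 1) → Bool × Bool)) /
      M2 x)) ≤ 2 * (1 + al x) * Real.exp (-(NN x (SS x g) / M2 x)) := h1
  nlinarith [h3, h4]

lemma total3 (x : ι → ℂ) (hinj : Function.Injective x) (hx : ∀ i, 1 < ‖x i‖) :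
    ∀ n : ℕ, ∑ f : Fin n → Bool × Bool × Bool,
      Real.exp (-(NN x (SS x fun i => red (f i)) / M2 x)) ≤ (2 * (3 + al x)) ^ n := by
  intro n
  induction n with
  | zero =>
    have : ∀ f : Fin 0 → Bool × Bool × Bool, NN x (SS x fun i => red (f i)) = 0 := by
      intro f
      have h0 : SS x (fun i => red (f i)) = 0 := by
        funext j
        simp [SS]
      rw [h0]
      simp [NN]
    simp [this]
  | succ n ih =>
    rw [← (Fin.consEquiv fun _ : Fin (n + 1) => Bool × Bool × Bool).sum_comp,
      Fintype.sum_prod_type_right]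
    have h1 : ∀ g : Fin n → Bool × Bool × Bool,
        ∑ a : Bool × Bool × Bool, Real.exp (-(NN x (SS x fun i => red (((Fin.consEquiv
          fun _ : Fin (n + 1) => Bool × Bool × Bool) (a, g)) i)) / M2 x)) ≤
        2 * (3 + al x) * Real.exp (-(NN x (SS x fun i => red (g i)) / M2 x)) := by
      intro g
      have h2 := step3 x hinj hx (fun i => red (g i))
      refine le_trans (le_of_eq ?_) h2
      refine Finset.sum_congr rfl fun a _ => ?_
      have e : (fun i => red (((Fin.consEquiv fun _ : Fin (n + 1) => Bool × Bool × Bool) (a, g)) i)) =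
          (Fin.cons (red a) (fun i => red (g i)) : Fin (n + 1) → Bool × Bool) := by
        funext i
        refine Fin.cases ?_ (fun i => ?_) i
        · simp [Fin.consEquiv]
        · simp [Fin.consEquiv]
      rw [e]
    refine (Finset.sum_le_sum fun g _ => h1 g).trans ?_
    rw [← Finset.mul_sum, pow_succ, mul_comm]
    have h2 : 0 ≤ 2 * (3 + al x) := by
      have : 0 ≤ al x := (Real.exp_pos _).le
      positivity
    exact mul_le_mul_of_nonneg_right ih h2

theorem lazy_count (x : ι → ℂ) (hinj : Function.Injective x) (hx : ∀ i, 1 < ‖x i‖) (x0 : ℂ)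
    (h : ∀ (n : ℕ) (c : Fin n → ℤ), ∑ i, (c i : ℂ) * x0 ^ (i : ℕ) = 0 →
      ∀ j, ∑ i, (c i : ℂ) * x j ^ (i : ℕ) = 0) (n : ℕ) :
    ((univ.filter fun f : Fin n → Bool × Bool × Bool =>
      ∑ i, (d3 (f i) : ℂ) * x0 ^ (i : ℕ) = 0).card : ℝ) ≤ (2 * (3 + al x)) ^ n := by
  classical
  refine le_trans ?_ (total3 x hinj hx n)
  rw [Finset.card_filter]
  push_cast
  refine Finset.sum_le_sum fun f _ => ?_
  split_ifs with hf
  · have h0 : SS x (fun i => red (f i)) = 0 := by
      funext j
      have h1 := h n (fun i => d3 (f i)) hf j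
      simp only [SS, Pi.zero_apply]
      rw [← h1]
      refine Finset.sum_congr rfl fun i _ => ?_
      rw [dd_red]
      push_cast
      rfl
    rw [h0]
    simp [NN]
  · exact (Real.exp_pos _).le

end

/-- the number `exp (-(1 - 1 / M²))` for the Mahler measure `M` of `x` -/
noncomputable def aM (x : ℂ) : ℝ := Real.exp (-(1 - 1 / MM x ^ 2))

lemma aM_pos (x : ℂ) : 0 < aM x := Real.exp_pos _

theorem lazy_unit (x : ℂ) (hx : IsIntegral ℤ x) (n : ℕ) :
    ((univ.filter fun f : Fin n → Bool × Bool × Bool =>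
      ∑ i, (d3 (f i) : ℂ) * x ^ (i : ℕ) = 0).card : ℝ) ≤ (2 * (3 + aM x)) ^ n := by
  classical
  have h := lazy_count (fun j : ↥(outer x) => (j : ℂ)) Subtype.val_injective
    (fun j => ((mem_outer x hx j).1 j.2).2) x (by
      intro n c hc j
      have h1 : aeval x (∑ i : Fin n, C (c i) * X ^ (i : ℕ) : ℤ[X]) = 0 := by
        rw [map_sum, ← hc]
        refine Finset.sum_congr rfl fun i _ => ?_
        simp
      have h2 : minpoly ℤ x ∣ (∑ i : Fin n, C (c i) * X ^ (i : ℕ) : ℤ[X]) :=
        minpoly.isIntegrallyClosed_dvd hx h1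
      obtain ⟨q, hq⟩ := h2
      have h3 : aeval (j : ℂ) (∑ i : Fin n, C (c i) * X ^ (i : ℕ) : ℤ[X]) = 0 := by
        rw [hq, map_mul, ((mem_outer x hx j).1 j.2).1, zero_mul]
      rw [map_sum] at h3
      rw [← h3]
      refine Finset.sum_congr rfl fun i _ => ?_
      simp) n
  have hM : M2 (fun j : ↥(outer x) => (j : ℂ)) = MM x ^ 2 := by
    unfold M2
    rw [Finset.prod_pow, MM_eq x hx]
    congr 1
    exact Finset.prod_coe_sort (outer x) (fun a => ‖a‖)
  unfold al at h
  rw [hM] at h
  exact h

/-- zero sums are trivial for elements that are not units -/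
lemma lazy_nonunit {F : Type*} [Field F] [DecidableEq F] [CharZero F] (u : F) (hu0 : u ≠ 0)
    (hu : ¬ (IsIntegral ℤ u ∧ IsIntegral ℤ u⁻¹)) (n : ℕ) (f : Fin n → Bool × Bool × Bool)
    (hf : ∑ i, (d3 (f i) : F) * u ^ (i : ℕ) = 0) : ∀ i, d3 (f i) = 0 := by
  classical
  by_contra hcon
  push Not at hcon
  apply hu
  have hd : ∀ i, d3 (f i) = 0 ∨ d3 (f i) = 1 ∨ d3 (f i) = -1 := by
    intro i
    obtain ⟨a, b, c⟩ := f i
    unfold d3 d2
    cases a <;> cases b <;> cases c <;> simp
  set p : ℤ[X] := ∑ i : Fin n, C (d3 (f i)) * X ^ (i : ℕ) with hp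
  have hcoef : ∀ j : Fin n, p.coeff j = d3 (f j) := by
    intro j
    rw [hp, finsetSum_coeff]
    rw [Finset.sum_eq_single j]
    · simp
    · intro b _ hb
      rw [coeff_C_mul, coeff_X_pow, if_neg, mul_zero]
      intro h
      exact hb (Fin.ext h.symm)
    · intro h; exact absurd (Finset.mem_univ j) h
  have hcoef' : ∀ j : ℕ, p.coeff j = 0 ∨ p.coeff j = 1 ∨ p.coeff j = -1 := by
    intro j
    by_cases hj : j < n
    · rw [hcoef ⟨j, hj⟩]; exact hd _
    · left
      rw [hp, finsetSum_coeff]
      apply Finset.sum_eq_zero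
      intro b _
      rw [coeff_C_mul, coeff_X_pow, if_neg, mul_zero]
      intro h
      apply hj
      rw [h]; exact b.2
  have hp0 : p ≠ 0 := by
    obtain ⟨i, hi⟩ := hcon
    intro h
    apply hi
    rw [← hcoef i, h, coeff_zero]
  have hroot : aeval u p = 0 := by
    rw [hp, map_sum, ← hf]
    refine Finset.sum_congr rfl fun i _ => ?_
    simp
  have key : ∀ (q : ℤ[X]) (v : F), aeval v q = 0 → (q.leadingCoeff = 1 ∨ q.leadingCoeff = -1) →
      IsIntegral ℤ v := by
    intro q v h1 h2
    rcases h2 with h2 | h2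
    · exact ⟨q, h2, h1⟩
    · refine ⟨-q, ?_, ?_⟩
      · rw [Monic, leadingCoeff_neg, h2]; rfl
      · have : aeval v (-q) = 0 := by rw [map_neg, h1, neg_zero]
        exact this
  constructor
  · apply key p u hroot
    rcases hcoef' p.natDegree with h | h
    · exact absurd h (leadingCoeff_ne_zero.2 hp0)
    · exact h
  · apply key p.reverse u⁻¹
    · let _ : Invertible u := invertibleOfNonzero hu0
      have h1 := (eval₂_reverse_eq_zero_iff (algebraMap ℤ F) u p).2 hroot
      rw [invOf_eq_inv] at h1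
      exact h1
    · rw [reverse_leadingCoeff]
      rcases hcoef' p.natTrailingDegree with h | h
      · exact absurd h (trailingCoeff_nonzero_iff_nonzero.2 hp0)
      · exact h

lemma card_zero (n : ℕ) : (univ.filter fun f : Fin n → Bool × Bool × Bool =>
    ∀ i, d3 (f i) = 0).card = 6 ^ n := by
  classical
  have e : (univ.filter fun f : Fin n → Bool × Bool × Bool => ∀ i, d3 (f i) = 0) =
      Fintype.piFinset fun _ : Fin n => univ.filter fun p : Bool × Bool × Bool => d3 p = 0 := by
    ext f
    simp [Fintype.mem_piFinset]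
  rw [e, Fintype.card_piFinset, Finset.prod_const, Finset.card_univ, Fintype.card_fin]
  congr 1

/-- the number of zero sums of lazy digits in a field of characteristic zero -/
theorem lazy_field {F : Type*} [Field F] [DecidableEq F] [CharZero F] (u : F) (hu0 : u ≠ 0)
    (hroot : ∀ m > 0, u ^ m ≠ 1) : ∃ x : ℂ, UnitNotRoot x ∧ ∀ (n : ℕ) (κ : F), κ ≠ 0 →
      ((univ.filter fun f : Fin n → Bool × Bool × Bool =>
        ∑ i, d3 (f i) • (κ * u ^ (i : ℕ)) = 0).card : ℝ) ≤ (2 * (3 + aM x)) ^ n := by
  classical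
  have hκ : ∀ (n : ℕ) (κ : F), κ ≠ 0 → ∀ f : Fin n → Bool × Bool × Bool,
      ∑ i, d3 (f i) • (κ * u ^ (i : ℕ)) = 0 → ∑ i, (d3 (f i) : F) * u ^ (i : ℕ) = 0 := by
    intro n κ hκ f hf
    have e : ∑ i, d3 (f i) • (κ * u ^ (i : ℕ)) = κ * ∑ i, (d3 (f i) : F) * u ^ (i : ℕ) := by
      rw [Finset.mul_sum]
      refine Finset.sum_congr rfl fun i _ => ?_
      rw [zsmul_eq_mul]; ring
    rw [e] at hf
    exact (mul_eq_zero.1 hf).resolve_left hκ
  by_cases hu : IsIntegral ℤ u ∧ IsIntegral ℤ u⁻¹
  · let _ : Algebra ℚ F := DivisionRing.toRatAlgebra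
    have hQ : IsIntegral ℚ u := hu.1.tower_top
    let K := IntermediateField.adjoin ℚ {u}
    have hfd : FiniteDimensional ℚ K := IntermediateField.adjoin.finiteDimensional hQ
    have halg : Algebra.IsAlgebraic ℚ K := Algebra.IsAlgebraic.of_finite ℚ K
    let φ : K →ₐ[ℚ] ℂ := IsAlgClosed.lift
    let g : K := ⟨u, IntermediateField.mem_adjoin_simple_self ℚ u⟩
    have hg : ((g : K) : F) = u := rfl
    have hg0 : g ≠ 0 := by
      intro h
      apply hu0
      rw [← hg, h]; rfl
    have hinjK : Function.Injective (algebraMap K F) := (algebraMap K F).injective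
    have hgint : IsIntegral ℤ g := by
      have h1 : IsIntegral ℤ (algebraMap K F g) := hu.1
      exact (isIntegral_algHom_iff ((algebraMap K F).toIntAlgHom) hinjK).1 h1
    have hgint' : IsIntegral ℤ g⁻¹ := by
      have h1 : IsIntegral ℤ (algebraMap K F g⁻¹) := by
        rw [map_inv₀]
        exact hu.2
      exact (isIntegral_algHom_iff ((algebraMap K F).toIntAlgHom) hinjK).1 h1
    refine ⟨φ g, ⟨?_, ?_, ?_, ?_⟩, ?_⟩
    · exact (map_ne_zero φ).2 hg0
    · exact hgint.map (φ.toRingHom.toIntAlgHom)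
    · rw [← map_inv₀]
      exact hgint'.map (φ.toRingHom.toIntAlgHom)
    · intro m hm h
      rw [← map_pow, ← map_one φ] at h
      have h2 : g ^ m = 1 := φ.toRingHom.injective h
      apply hroot m hm
      have h3 := congrArg (algebraMap K F) h2
      rw [map_pow, map_one] at h3
      exact h3
    · intro n κ hκ0
      refine le_trans ?_ (lazy_unit (φ g) (hgint.map (φ.toRingHom.toIntAlgHom)) n)
      have hsub : (univ.filter fun f : Fin n → Bool × Bool × Bool =>
          ∑ i, d3 (f i) • (κ * u ^ (i : ℕ)) = 0) ⊆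
          (univ.filter fun f : Fin n → Bool × Bool × Bool =>
          ∑ i, (d3 (f i) : ℂ) * (φ g) ^ (i : ℕ) = 0) := by
        intro f hf
        simp only [Finset.mem_filter, Finset.mem_univ, true_and] at hf ⊢
        have h1 := hκ n κ hκ0 f hf
        have h2 : ∑ i, (d3 (f i) : K) * g ^ (i : ℕ) = 0 := by
          apply hinjK
          rw [map_zero, ← h1, map_sum]
          refine Finset.sum_congr rfl fun i _ => ?_
          rw [map_mul, map_pow, map_intCast]
          rfl
        have h3 := congrArg φ h2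
        rw [map_zero, map_sum] at h3
        rw [← h3]
        refine Finset.sum_congr rfl fun i _ => ?_
        rw [map_mul, map_pow, map_intCast]
      exact_mod_cast Finset.card_le_card hsub
  · obtain ⟨y, hy⟩ := exists_unit
    refine ⟨y, hy, ?_⟩
    intro n κ hκ0
    have hsub : (univ.filter fun f : Fin n → Bool × Bool × Bool =>
        ∑ i, d3 (f i) • (κ * u ^ (i : ℕ)) = 0) ⊆
        (univ.filter fun f : Fin n → Bool × Bool × Bool => ∀ i, d3 (f i) = 0) := by
      intro f hf
      simp only [Finset.mem_filter, Finset.mem_univ, true_and] at hf ⊢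
      exact lazy_nonunit u hu0 hu n f (hκ n κ hκ0 f hf)
    have h1 := Finset.card_le_card hsub
    rw [card_zero] at h1
    have h2 : ((univ.filter fun f : Fin n → Bool × Bool × Bool =>
        ∑ i, d3 (f i) • (κ * u ^ (i : ℕ)) = 0).card : ℝ) ≤ 6 ^ n := by exact_mod_cast h1
    refine h2.trans ?_
    have h3 := aM_pos y
    exact pow_le_pow_left₀ (by norm_num) (by linarith) n

end Pool.Agent.Helper4W
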