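import Pool.Agent.Helper4W.Tha
import Pool.Agent.Helper4W.Alg
import Pool.Agent.N600.G3.Red

/-!
# Reduction to crossed homomorphisms

Helper4, page MP_d69e80_al (after helper600).
-/

set_option autoImplicit false

namespace Pool.Agent.Helper4W

open scoped Pointwise commutatorElement
open Subgroup
open Pool.Agent.N600.G3
open Pool.Agent.W963.GE (UnitNotRoot MM)

universe u

/-- growth when the second derived subgroup is finitely generated and abelian and the derived
subgroup is not virtually nilpotent -/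
theorem reduc (G : Type u) [Group G] (T : Set G)
    (hfin : T.Finite) (h1T : 1 ∈ T) (hinv : T⁻¹ = T) (hgen : closure T = ⊤)
    (hFG : (commutator G).FG)
    (habel : ∀ x ∈ commutator (commutator G), ∀ y ∈ commutator (commutator G), x * y = y * x)
    (hfg : (commutator (commutator G)).FG)
    (hnv : ¬ Group.IsVirtuallyNilpotent (commutator G)) :
    ∃ K : ℕ, 0 < K ∧ ∃ x : ℂ, UnitNotRoot x ∧ ∀ R : ℕ,
      (K : ℝ) / 2 * R * hM x ≤ Real.log (Nat.card ↥(T ^ (22 * K * R))) := by
  have : Group.FG (commutator G) := (Group.fg_iff_subgroup_fg _).2 hFG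
  obtain ⟨F, iF, hchar, χ, f, hf1, hf2, ⟨x0, hx0, hfx0⟩, m0, hm0⟩ :=
    alg (commutator G) habel hfg hnv
  -- a short commutator
  have hex : ∃ (g : G) (c : commutator G), (c : G) ∈ CT T ∧ ¬ IsOfFinOrder (χ (cj g c)) := by
    by_contra hcon
    push Not at hcon
    let Q : Subgroup G :=
      { carrier := {x | ∃ hx : x ∈ commutator G, ∀ g : G, χ (cj g ⟨x, hx⟩) ∈ CommGroup.torsion Fˣ}
        mul_mem' := by
          rintro a b ⟨ha, ha'⟩ ⟨hb, hb'⟩
          refine ⟨mul_mem ha hb, fun g => ?_⟩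
          have : (⟨a * b, mul_mem ha hb⟩ : commutator G) = ⟨a, ha⟩ * ⟨b, hb⟩ := rfl
          rw [this, map_mul, map_mul]
          exact mul_mem (ha' g) (hb' g)
        one_mem' := by
          refine ⟨one_mem _, fun g => ?_⟩
          have : (⟨1, one_mem _⟩ : commutator G) = 1 := rfl
          rw [this, map_one, map_one]
          exact one_mem _
        inv_mem' := by
          rintro a ⟨ha, ha'⟩
          refine ⟨inv_mem ha, fun g => ?_⟩
          have : (⟨a⁻¹, inv_mem ha⟩ : commutator G) = (⟨a, ha⟩ : commutator G)⁻¹ := rfl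
          rw [this, map_inv, map_inv]
          exact inv_mem (ha' g) }
    have hQn : Q.Normal := by
      refine ⟨?_⟩
      rintro a ⟨ha, ha'⟩ h
      refine ⟨(commutator_normal ⊤ ⊤).conj_mem a ha h, fun g => ?_⟩
      have e : (⟨h * a * h⁻¹, (commutator_normal ⊤ ⊤).conj_mem a ha h⟩ : commutator G) =
          cj h ⟨a, ha⟩ := rfl
      rw [e, cj_cj]
      exact ha' (g * h)
    have hle : commutator G ≤ Q := by
      refine (comm_le hgen).trans (normalClosure_le_normal ?_)
      intro x hx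
      exact ⟨CT_sub T hx, fun g => hcon g ⟨x, CT_sub T hx⟩ hx⟩
    obtain ⟨hm, hm'⟩ := hle m0.2
    apply hm0
    have := hm' 1
    rw [cj_one] at this
    exact this
  obtain ⟨g, c, hc, hvc⟩ := hex
  let χ' : commutator G →* Fˣ := χ.comp (cj g)
  let f' : commutator G → F := fun x => f (cj g x)
  have hf1' : ∀ x ∈ commutator (commutator G), ∀ y ∈ commutator (commutator G),
      f' (x * y) = f' x + f' y := by
    intro x hx y hy
    show f (cj g (x * y)) = _
    rw [map_mul, hf1 _ (cj_comm_mem g hx) _ (cj_comm_mem g hy)]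
  have hf2' : ∀ m, ∀ x ∈ commutator (commutator G), f' (m * x * m⁻¹) = (χ' m : F) * f' x := by
    intro m x hx
    show f (cj g (m * x * m⁻¹)) = _
    rw [map_mul, map_mul, map_inv, hf2 _ _ (cj_comm_mem g hx)]
    rfl
  have hcm : ∀ m, c * m * c⁻¹ * m⁻¹ ∈ commutator (commutator G) := fun m =>
    commutator_mem_commutator (mem_top c) (mem_top m)
  have hcr : Crossed χ' (fun m => f' (c * m * c⁻¹ * m⁻¹)) := by
    intro m m'
    have e : c * (m * m') * c⁻¹ * (m * m')⁻¹ =
        (c * m * c⁻¹ * m⁻¹) * (m * (c * m' * c⁻¹ * m'⁻¹) * m⁻¹) := by group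
    show f' (c * (m * m') * c⁻¹ * (m * m')⁻¹) = _
    rw [e, hf1' _ (hcm m) _ (Normal.conj_mem inferInstance _ (hcm m') m), hf2' _ _ (hcm m')]
  refine tha G T hfin h1T hinv hgen F χ' _ hcr c hc ?_ hvc ?_
  · show f' (c * c * c⁻¹ * c⁻¹) = 0
    have e : c * c * c⁻¹ * c⁻¹ = 1 := by group
    rw [e]
    show f (cj g 1) = 0
    rw [map_one]
    exact f_one hf1
  · refine ⟨cj g⁻¹ x0, ?_⟩
    have h1 : cj g⁻¹ x0 ∈ commutator (commutator G) := cj_comm_mem _ hx0
    have h2 : f' (cj g⁻¹ x0) = f x0 := by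
      show f (cj g (cj g⁻¹ x0)) = _
      rw [cj_cj, mul_inv_cancel, cj_one]
    show f' (c * cj g⁻¹ x0 * c⁻¹ * (cj g⁻¹ x0)⁻¹) ≠ 0
    rw [hf1' _ (Normal.conj_mem inferInstance _ h1 c) _ (inv_mem h1), hf2' _ _ h1]
    have h3 : f' ((cj g⁻¹ x0)⁻¹) = - f' (cj g⁻¹ x0) := by
      have h4 := hf1' _ h1 _ (inv_mem h1)
      rw [mul_inv_cancel] at h4
      have h5 : f' 1 = 0 := by
        show f (cj g 1) = 0
        rw [map_one]
        exact f_one hf1
      rw [h5] at h4
      exact (eq_neg_of_add_eq_zero_right h4.symm)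
    rw [h3, h2]
    have h6 : (χ' c : F) * f x0 + -f x0 = ((χ' c : F) - 1) * f x0 := by ring
    rw [h6]
    refine mul_ne_zero (sub_ne_zero.2 ?_) hfx0
    intro h7
    apply hvc
    have h8 : χ' c = 1 := Units.ext h7
    show IsOfFinOrder (χ' c)
    rw [h8]
    exact IsOfFinOrder.one

end Pool.Agent.Helper4W
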