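import Pool.Agent.Helper4W.Cnt
import Pool.Agent.N600.G3.Tha
import Pool.Agent.N918.G3.GEO
import Pool.Agent.N454.G3.LEN

/-!
# Growth from a crossed homomorphism with a nontorsion character

Helper4, page MP_d69e80_al (after helper600).
-/

set_option autoImplicit false

namespace Pool.Agent.Helper4W

open Pool.Agent.N600.G3
open Pool.Agent.W963.GE (UnitNotRoot MM)
open scoped Pointwise

universe u

theorem tha (G : Type u) [Group G] (T : Set G) (hfin : T.Finite) (h1T : 1 ∈ T) (hinv : T⁻¹ = T)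
    (hgen : Subgroup.closure T = ⊤) (F : Type u) [Field F] [CharZero F]
    (χ : commutator G →* Fˣ) (b : commutator G → F) (hb : Crossed χ b)
    (c : commutator G) (hc : (c : G) ∈ CT T) (hbc : b c = 0) (hvc : ¬ IsOfFinOrder (χ c))
    (hne : ∃ m, b m ≠ 0) :
    ∃ K : ℕ, 0 < K ∧ ∃ x : ℂ, UnitNotRoot x ∧ ∀ R : ℕ,
      (K : ℝ) / 2 * R * hM x ≤ Real.log (Nat.card ↥(T ^ (22 * K * R))) := by
  obtain ⟨K, s, d, hK, hs, hd, hi, hii, hiii⟩ :=
    N918.G3.t_geo G T h1T hinv hgen F χ b hb c hc hbc hne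
  let g : Fin K → G := fun i => (hh s (K - 1 - i))⁻¹
  let χ' : Fin K → commutator G →* Fˣ := fun i => χ.comp (cj (g i))
  let b' : Fin K → commutator G → F := fun i m => b (cj (g i) m)
  let c' : Fin K → commutator G := fun j => cj (hh s (K - 1 - j)) c
  let d' : Fin K → commutator G := fun j => cj (hh s (K + (K - 1 - j))) d
  have hb' : ∀ k, Crossed (χ' k) (b' k) := by
    intro k m m'
    show b (cj (g k) (m * m')) = b (cj (g k) m) + (χ (cj (g k) m) : F) * b (cj (g k) m')
    rw [map_mul, hb]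
  have e1 : ∀ i j, b' i (c' j) = 0 := by
    intro i j
    show b (cj (g i) (cj (hh s (K - 1 - j)) c)) = 0
    rw [cj_cj]
    exact hi _ (by omega) _ (by omega)
  have e2 : ∀ i j, i < j → b' i (d' j) = 0 := by
    intro i j hij
    show b (cj (g i) (cj (hh s (K + (K - 1 - j))) d)) = 0
    rw [cj_cj]
    have : (i : ℕ) < j := hij
    exact hii _ _ (by omega) (by omega)
  have e3 : ∀ i, b' i (d' i) ≠ 0 := by
    intro i
    show b (cj (g i) (cj (hh s (K + (K - 1 - i))) d)) ≠ 0
    rw [cj_cj]
    exact hiii _ (by omega)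
  have e4 : ∀ i, ¬ IsOfFinOrder (χ' i (c' i)) := by
    intro i
    show ¬ IsOfFinOrder (χ (cj (g i) (cj (hh s (K - 1 - i)) c)))
    rw [cj_cj]
    have : g i * hh s (K - 1 - i) = 1 := inv_mul_cancel _
    rw [this, cj_one]
    exact hvc
  obtain ⟨ε, x, hx, hε⟩ := cnt (commutator G) F K hK χ' b' hb' c' d' e1 e2 e3 e4
  obtain ⟨hL1, hL2⟩ := N454.G3.t_len G T h1T hinv s hs c d hc hd K hK
  refine ⟨K, hK, x, hx, fun R => (hε R).trans ?_⟩
  have hmem : ∀ δ : Fin R → Fin K → Bool,
      ((((List.ofFn fun r => AA d' (δ r) * AA c' ε * (AA d' (δ r))⁻¹).prod :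
        commutator G)) : G) ∈ T ^ (22 * K * R) := by
    intro δ
    have h5 : ((((List.ofFn fun r => AA d' (δ r) * AA c' ε * (AA d' (δ r))⁻¹).prod :
        commutator G)) : G) = (List.ofFn fun r => (((AA d' (δ r) * AA c' ε * (AA d' (δ r))⁻¹ :
          commutator G)) : G)).prod := by
      have := map_list_prod (commutator G).subtype
        (List.ofFn fun r => AA d' (δ r) * AA c' ε * (AA d' (δ r))⁻¹)
      rw [List.map_ofFn] at this
      exact this
    rw [h5]
    apply prod_mem_pow
    intro r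
    have h6 : ((AA d' (δ r) : commutator G) : G) ∈ T ^ (8 * K) := by
      have := AA_map (commutator G).subtype d' (δ r)
      show (commutator G).subtype _ ∈ _
      rw [this]
      exact hL2 (δ r)
    have h7 : ((AA c' ε : commutator G) : G) ∈ T ^ (6 * K) := by
      have := AA_map (commutator G).subtype c' ε
      show (commutator G).subtype _ ∈ _
      rw [this]
      exact hL1 ε
    have h8 : T ^ (22 * K) = T ^ (8 * K) * T ^ (6 * K) * T ^ (8 * K) := by
      rw [← pow_add, ← pow_add]; congr 1; omega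
    rw [h8]
    exact Set.mul_mem_mul (Set.mul_mem_mul h6 h7) (inv_mem_pow hinv h6)
  have hfinT : Finite ↥(T ^ (22 * K * R)) := by
    exact (finite_pow hfin _).to_subtype
  have hfinR : Finite (Set.range fun δ : Fin R → Fin K → Bool =>
      (List.ofFn fun r => AA d' (δ r) * AA c' ε * (AA d' (δ r))⁻¹).prod) := Set.finite_range _
  apply Real.log_le_log
  · have : Nonempty (Set.range fun δ : Fin R → Fin K → Bool =>
      (List.ofFn fun r => AA d' (δ r) * AA c' ε * (AA d' (δ r))⁻¹).prod) :=
      ⟨⟨_, fun _ _ => true, rfl⟩⟩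
    exact_mod_cast Nat.card_pos
  · have hle : Nat.card (Set.range fun δ : Fin R → Fin K → Bool =>
        (List.ofFn fun r => AA d' (δ r) * AA c' ε * (AA d' (δ r))⁻¹).prod) ≤
        Nat.card ↥(T ^ (22 * K * R)) := by
      refine Nat.card_le_card_of_injective
        (fun x : Set.range _ => (⟨((x : commutator G) : G), ?_⟩ : ↥(T ^ (22 * K * R)))) ?_
      · obtain ⟨_, δ, rfl⟩ := x
        exact hmem δ
      · intro x y hxy
        have h9 := congrArg (fun z : ↥(T ^ (22 * K * R)) => (z : G)) hxy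
        exact Subtype.ext (Subtype.ext h9)
    exact_mod_cast hle

end Pool.Agent.Helper4W
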