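import Mathlib

/-!
Automorphisms of the binary rooted tree (vertices: lists of Booleans) which act on the second level
by translations of `(ℤ/2)²`, and the involution of this group given by interchanging the first two
letters.
-/

set_option autoImplicit false

namespace Pool.Agent.Helper4W

theorem inv_app {α : Type*} (g : Equiv.Perm α) (v : α) : g⁻¹ (g v) = v := g.symm_apply_apply v

theorem app_inv {α : Type*} (g : Equiv.Perm α) (v : α) : g (g⁻¹ v) = v := g.apply_symm_apply v

/-- interchange the first two letters -/
def sw : List Bool → List Bool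
  | x :: y :: w => y :: x :: w
  | l => l

theorem sw_sw (l : List Bool) : sw (sw l) = l := by
  match l with
  | [] => rfl
  | [_] => rfl
  | _ :: _ :: _ => rfl

theorem length_sw (l : List Bool) : (sw l).length = l.length := by
  match l with
  | [] => rfl
  | [_] => rfl
  | _ :: _ :: _ => rfl

theorem sw_pre {v w : List Bool} (h : v <+: w) (h2 : 2 ≤ v.length) : sw v <+: sw w := by
  match v, w, h with
  | x :: y :: v, x' :: y' :: w, h =>
    rw [List.cons_prefix_cons, List.cons_prefix_cons] at h
    obtain ⟨rfl, rfl, h⟩ := h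
    simpa [sw] using h

/-- The group of all automorphisms of the binary tree that act on the second level by
translations. -/
def LL : Subgroup (Equiv.Perm (List Bool)) where
  carrier := {g | (∀ v, (g v).length = v.length) ∧ (∀ v w, v <+: w → g v <+: g w) ∧
    ∃ a b : Bool, ∀ x y, g [x, y] = [xor x a, xor y b]}
  one_mem' := ⟨fun _ => rfl, fun _ _ h => h, false, false, fun x y => by simp⟩
  mul_mem' := by
    rintro g h ⟨g1, g2, a, b, g3⟩ ⟨h1, h2, a', b', h3⟩
    refine ⟨fun v => ?_, fun v w hvw => ?_, xor a' a, xor b' b, fun x y => ?_⟩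
    · rw [Equiv.Perm.mul_apply, g1, h1]
    · exact g2 _ _ (h2 _ _ hvw)
    · rw [Equiv.Perm.mul_apply, h3, g3]
      simp
  inv_mem' := by
    rintro g ⟨g1, g2, a, b, g3⟩
    have hl : ∀ v, (g⁻¹ v).length = v.length := by
      intro v
      have := g1 (g⁻¹ v)
      rw [app_inv] at this
      exact this.symm
    refine ⟨hl, fun v w hvw => ?_, a, b, fun x y => ?_⟩
    · have h1 : g ((g⁻¹ w).take v.length) <+: w := by
        have := g2 _ _ (List.take_prefix v.length (g⁻¹ w))
        rwa [app_inv] at this
      have h2 : (g ((g⁻¹ w).take v.length)).length = v.length := by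
        rw [g1, List.length_take, hl]
        exact min_eq_left hvw.length_le
      have h3 : g ((g⁻¹ w).take v.length) = v := by
        have e1 := List.prefix_iff_eq_take.1 h1
        have e2 := List.prefix_iff_eq_take.1 hvw
        rw [e1, h2]
        exact e2.symm
      have h4 : g⁻¹ v = (g⁻¹ w).take v.length := Equiv.Perm.inv_eq_iff_eq.2 h3.symm
      rw [h4]
      exact List.take_prefix _ _
    · rw [Equiv.Perm.inv_eq_iff_eq, g3]
      simp

theorem LL_len {g : Equiv.Perm (List Bool)} (hg : g ∈ LL) (v : List Bool) :
    (g v).length = v.length := hg.1 v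

theorem LL_pre {g : Equiv.Perm (List Bool)} (hg : g ∈ LL) {v w : List Bool} (h : v <+: w) :
    g v <+: g w := hg.2.1 v w h

theorem LL_pre_iff {g : Equiv.Perm (List Bool)} (hg : g ∈ LL) {v w : List Bool} :
    v <+: w ↔ g v <+: g w := by
  refine ⟨LL_pre hg, fun h => ?_⟩
  have := LL_pre (LL.inv_mem hg) h
  rwa [inv_app, inv_app] at this

theorem LL_take {g : Equiv.Perm (List Bool)} (hg : g ∈ LL) (v : List Bool) (n : ℕ) :
    (g v).take n = g (v.take n) := by
  have h1 : g (v.take n) <+: g v := LL_pre hg (List.take_prefix n v)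
  have h2 := List.prefix_iff_eq_take.1 h1
  rw [h2, LL_len hg, List.length_take]
  rcases le_total n v.length with h | h
  · rw [min_eq_left h]
  · rw [min_eq_right h, List.take_of_length_le (l := g v) (by rw [LL_len hg]; exact h),
      List.take_of_length_le (l := g v) (by rw [LL_len hg])]

/-- the permutation of the vertices given by a self-map `s g s` of the far vertices -/
def PhiFun (g : Equiv.Perm (List Bool)) (v : List Bool) : List Bool :=
  (sw (g (sw (v ++ [false, false])))).take v.length

theorem shape {g : Equiv.Perm (List Bool)} (hg : g ∈ LL) : ∃ a b : Bool, ∀ (x y : Bool)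
    (w : List Bool), ∃ w', g (x :: y :: w) = xor x a :: xor y b :: w' := by
  obtain ⟨g1, g2, a, b, g3⟩ := hg
  refine ⟨a, b, fun x y w => ?_⟩
  have h : g [x, y] <+: g (x :: y :: w) := g2 _ _ ⟨w, rfl⟩
  rw [g3] at h
  obtain ⟨t, ht⟩ := h
  exact ⟨t, ht.symm⟩

/-- any far descendant can be used to compute the map -/
theorem PhiFun_eq {g : Equiv.Perm (List Bool)} (hg : g ∈ LL) {v w : List Bool} (h : v <+: w)
    (hw : 2 ≤ w.length) : PhiFun g v = (sw (g (sw w))).take v.length := by
  obtain ⟨a, b, hab⟩ := shape hg
  rcases lt_or_ge v.length 2 with hv | hv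
  · match v, w, h with
    | [], w, _ => rfl
    | [x], x' :: y' :: w, h =>
      rw [List.cons_prefix_cons] at h
      obtain ⟨rfl, -⟩ := h
      obtain ⟨w1, h1⟩ := hab false x [false]
      obtain ⟨w2, h2⟩ := hab y' x w
      simp only [PhiFun, List.cons_append, List.nil_append, sw, h1, h2, List.length_singleton,
        List.take_succ_cons, List.take_zero]
    | x :: y :: v, w, _ => simp at hv
  · have h1 : sw (g (sw v)) <+: sw (g (sw w)) :=
      sw_pre (LL_pre hg (sw_pre h hv)) (by rw [LL_len hg, length_sw]; exact hv)
    have h2 : sw (g (sw v)) <+: sw (g (sw (v ++ [false, false]))) :=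
      sw_pre (LL_pre hg (sw_pre (List.prefix_append _ _) hv)) (by rw [LL_len hg, length_sw]; exact hv)
    have hl : (sw (g (sw v))).length = v.length := by rw [length_sw, LL_len hg, length_sw]
    have e1 := List.prefix_iff_eq_take.1 h1
    have e2 := List.prefix_iff_eq_take.1 h2
    rw [hl] at e1 e2
    rw [PhiFun, ← e1, ← e2]

theorem PhiFun_len {g : Equiv.Perm (List Bool)} (hg : g ∈ LL) (v : List Bool) :
    (PhiFun g v).length = v.length := by
  rw [PhiFun, List.length_take, length_sw, LL_len hg, length_sw, List.length_append]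
  simp

theorem PhiFun_pre {g : Equiv.Perm (List Bool)} (hg : g ∈ LL) {v w : List Bool} (h : v <+: w) :
    PhiFun g v <+: PhiFun g w := by
  rw [PhiFun_eq hg (h.trans (List.prefix_append w [false, false])) (by simp),
    PhiFun_eq hg (List.prefix_append w [false, false]) (by simp)]
  exact List.take_prefix_take_left h.length_le

theorem PhiFun_two {g : Equiv.Perm (List Bool)} (hg : g ∈ LL) (v : List Bool)
    (hv : 2 ≤ v.length) : PhiFun g v = sw (g (sw v)) := by
  rw [PhiFun_eq hg (List.prefix_refl v) hv, List.take_of_length_le]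
  rw [length_sw, LL_len hg, length_sw]

theorem PhiFun_mul {g h : Equiv.Perm (List Bool)} (hg : g ∈ LL) (hh : h ∈ LL) (v : List Bool) :
    PhiFun g (PhiFun h v) = PhiFun (g * h) v := by
  have h1 : PhiFun h v <+: sw (h (sw (v ++ [false, false]))) := by
    rw [PhiFun]
    exact List.take_prefix _ _
  rw [PhiFun_eq hg h1 (by rw [length_sw, LL_len hh, length_sw]; simp), sw_sw, PhiFun_len hh]
  rfl

theorem PhiFun_one (v : List Bool) : PhiFun 1 v = v := by
  rw [PhiFun, Equiv.Perm.one_apply, sw_sw]
  simp

/-- the permutation `s g s` -/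
def PhiPerm (g : LL) : Equiv.Perm (List Bool) where
  toFun := PhiFun g
  invFun := PhiFun (g⁻¹ : LL)
  left_inv v := by
    rw [PhiFun_mul (g⁻¹).2 g.2, ← Subgroup.coe_mul, inv_mul_cancel]
    exact PhiFun_one v
  right_inv v := by
    rw [PhiFun_mul g.2 (g⁻¹).2, ← Subgroup.coe_mul, mul_inv_cancel]
    exact PhiFun_one v

theorem PhiPerm_mem (g : LL) : PhiPerm g ∈ LL := by
  refine ⟨PhiFun_len g.2, fun v w => PhiFun_pre g.2, ?_⟩
  obtain ⟨a, b, h⟩ := g.2.2.2
  refine ⟨b, a, fun x y => ?_⟩
  change PhiFun g [x, y] = _
  rw [PhiFun_two g.2 _ (by simp)]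
  simp only [sw, h]

/-- the automorphism `g ↦ s g s` of `LL` -/
def Phi : LL ≃* LL where
  toFun g := ⟨PhiPerm g, PhiPerm_mem g⟩
  invFun g := ⟨PhiPerm g, PhiPerm_mem g⟩
  left_inv g := by
    apply Subtype.ext
    ext1 v
    change PhiFun (PhiPerm g) v = g.1 v
    rw [PhiFun]
    change (sw (PhiFun g (sw (v ++ [false, false])))).take v.length = _
    rw [PhiFun_two g.2 _ (by rw [length_sw]; simp), sw_sw, sw_sw, LL_take g.2]
    simp
  right_inv g := by
    apply Subtype.ext
    ext1 v
    change PhiFun (PhiPerm g) v = g.1 v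
    rw [PhiFun]
    change (sw (PhiFun g (sw (v ++ [false, false])))).take v.length = _
    rw [PhiFun_two g.2 _ (by rw [length_sw]; simp), sw_sw, sw_sw, LL_take g.2]
    simp
  map_mul' g h := by
    apply Subtype.ext
    ext1 v
    exact (PhiFun_mul g.2 h.2 v).symm

theorem Phi_apply (g : LL) (v : List Bool) : (Phi g : Equiv.Perm (List Bool)) v = PhiFun g v := rfl

/-- translation of all vertices by a sequence of letters -/
def tr (c : ℕ → Bool) (v : List Bool) : List Bool := v.mapIdx (fun i x => xor x (c i))

theorem length_tr (c : ℕ → Bool) (v : List Bool) : (tr c v).length = v.length := by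
  simp [tr]

theorem tr_tr (c : ℕ → Bool) (v : List Bool) : tr c (tr c v) = v := by
  apply List.ext_getElem
  · simp [tr]
  · intro i h1 h2
    simp [tr]

theorem tr_pre (c : ℕ → Bool) {v w : List Bool} (h : v <+: w) : tr c v <+: tr c w := by
  obtain ⟨t, rfl⟩ := h
  rw [tr, tr, List.mapIdx_append]
  exact List.prefix_append _ _

/-- translation as a permutation -/
def trP (c : ℕ → Bool) : Equiv.Perm (List Bool) where
  toFun := tr c
  invFun := tr c
  left_inv := tr_tr c
  right_inv := tr_tr c

theorem trP_mem (c : ℕ → Bool) : trP c ∈ LL :=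
  ⟨length_tr c, fun _ _ => tr_pre c, c 0, c 1, fun x y => by simp [trP, tr]⟩

theorem LL_trans {v w : List Bool} (h : v.length = w.length) : ∃ g ∈ LL, g v = w := by
  refine ⟨trP (fun i => xor (v.getD i false) (w.getD i false)), trP_mem _, ?_⟩
  change tr _ v = w
  apply List.ext_getElem
  · simp [tr, h]
  · intro i h1 h2
    rw [length_tr] at h1
    simp [tr, List.getD_eq_getElem?_getD, List.getElem?_eq_getElem h1, List.getElem?_eq_getElem h2]

/-! ### Rigid stabilisers -/

/-- the elements of the rigid stabilisers of the vertices of level `n` -/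
def RR (n : ℕ) : Set (Equiv.Perm (List Bool)) :=
  {g | g ∈ LL ∧ ∃ u : List Bool, u.length = n ∧ ∀ v, ¬ u <+: v → g v = v}

/-- the part of `g` on the vertices below the vertices in `P` -/
def restrFun (g : Equiv.Perm (List Bool)) (n : ℕ) (P : List Bool → Prop) [DecidablePred P]
    (v : List Bool) : List Bool := if P (v.take n) then g v else v

theorem restrFun_take {g : Equiv.Perm (List Bool)} (hg : g ∈ LL) {n : ℕ}
    (hfix : ∀ v : List Bool, v.length ≤ n → g v = v) (P : List Bool → Prop) [DecidablePred P]
    (v : List Bool) : (restrFun g n P v).take n = v.take n := by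
  rw [restrFun]
  split_ifs
  · rw [LL_take hg, hfix]
    simp
  · rfl

/-- the part of `g` on the vertices below the vertices in `P`, as a permutation -/
def restr (g : Equiv.Perm (List Bool)) (hg : g ∈ LL) (n : ℕ)
    (hfix : ∀ v : List Bool, v.length ≤ n → g v = v) (P : List Bool → Prop) [DecidablePred P] :
    Equiv.Perm (List Bool) where
  toFun := restrFun g n P
  invFun := restrFun g⁻¹ n P
  left_inv v := by
    rw [restrFun, restrFun_take hg hfix]
    split_ifs with h
    · rw [restrFun, if_pos h, inv_app]
    · rw [restrFun, if_neg h]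
  right_inv v := by
    have hfix' : ∀ v : List Bool, v.length ≤ n → g⁻¹ v = v := by
      intro v hv
      rw [Equiv.Perm.inv_eq_iff_eq, hfix v hv]
    rw [restrFun, restrFun_take (LL.inv_mem hg) hfix']
    split_ifs with h
    · rw [restrFun, if_pos h, app_inv]
    · rw [restrFun, if_neg h]

theorem restr_apply (g : Equiv.Perm (List Bool)) (hg : g ∈ LL) (n : ℕ)
    (hfix : ∀ v : List Bool, v.length ≤ n → g v = v) (P : List Bool → Prop) [DecidablePred P]
    (v : List Bool) : restr g hg n hfix P v = if P (v.take n) then g v else v := rfl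

theorem restr_mem (g : Equiv.Perm (List Bool)) (hg : g ∈ LL) (n : ℕ)
    (hfix : ∀ v : List Bool, v.length ≤ n → g v = v) (h2 : ∀ v : List Bool, v.length ≤ 2 → g v = v)
    (P : List Bool → Prop) [DecidablePred P] : restr g hg n hfix P ∈ LL := by
  refine ⟨fun v => ?_, fun v w hvw => ?_, false, false, fun x y => ?_⟩
  · rw [restr_apply]
    split_ifs
    · exact LL_len hg v
    · rfl
  · rw [restr_apply, restr_apply]
    rcases le_total n v.length with hn | hn
    · have h1 : v.take n = w.take n := by
        obtain ⟨t, rfl⟩ := hvw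
        rw [List.take_append_of_le_length hn]
      rw [h1]
      split_ifs
      · exact LL_pre hg hvw
      · exact hvw
    · have h1 : (if P (v.take n) then g v else v) = v := by
        rw [hfix v hn, ite_self]
      rw [h1]
      split_ifs
      · have := LL_pre hg hvw
        rwa [hfix v hn] at this
      · exact hvw
  · rw [restr_apply, h2 [x, y] (by simp), ite_self]
    simp

theorem mem_closure_RR (g : Equiv.Perm (List Bool)) (hg : g ∈ LL) (n : ℕ)
    (hfix : ∀ v : List Bool, v.length ≤ n → g v = v)
    (h2 : ∀ v : List Bool, v.length ≤ 2 → g v = v) : g ∈ Subgroup.closure (RR n) := by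
  classical
  have key : ∀ s : Finset (List Bool), (∀ u ∈ s, u.length = n) →
      restr g hg n hfix (fun u => u ∈ s) ∈ Subgroup.closure (RR n) := by
    intro s
    induction s using Finset.induction_on with
    | empty =>
      intro _
      have : restr g hg n hfix (fun u => u ∈ (∅ : Finset (List Bool))) = 1 := by
        ext1 v
        rw [restr_apply]
        simp
      rw [this]
      exact one_mem _
    | insert u s hu ih =>
      intro hs
      have h1 := ih (fun u' hu' => hs u' (Finset.mem_insert_of_mem hu'))
      have h3 : restr g hg n hfix (fun u' => u' ∈ insert u s) =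
          restr g hg n hfix (fun u' => u' ∈ s) * restr g hg n hfix (fun u' => u' = u) := by
        ext1 v
        rw [Equiv.Perm.mul_apply, restr_apply, restr_apply, restr_apply]
        by_cases hvu : v.take n = u
        · have h4 : (g v).take n = u := by
            rw [LL_take hg, hfix _ (by simp), hvu]
          rw [if_pos hvu, if_pos (by rw [hvu]; exact Finset.mem_insert_self _ _),
            if_neg (by rw [h4]; exact hu)]
        · rw [if_neg hvu]
          simp only [Finset.mem_insert, hvu, false_or]
      rw [h3]
      refine mul_mem h1 (Subgroup.subset_closure ⟨restr_mem g hg n hfix h2 _, u,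
        hs u (Finset.mem_insert_self _ _), fun v hv => ?_⟩)
      rw [restr_apply, if_neg]
      rintro rfl
      exact hv (List.take_prefix _ _)
  have hfin : {u : List Bool | u.length = n}.Finite := List.finite_length_eq Bool n
  have h := key hfin.toFinset (fun u hu => by simpa using hu)
  have e : restr g hg n hfix (fun u => u ∈ hfin.toFinset) = g := by
    ext1 v
    rw [restr_apply]
    rcases le_total n v.length with hn | hn
    · rw [if_pos]
      simp [hn]
    · rw [hfix v hn, ite_self]
  rwa [e] at h

/-- No tree automorphism induces `Phi`. -/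
theorem no_conj (σ : Equiv.Perm (List Bool)) (hσ : ∀ v w, v <+: w ↔ σ v <+: σ w) :
    ∃ g : LL, (Phi g : Equiv.Perm (List Bool)) ≠ σ * g * σ⁻¹ := by
  refine ⟨⟨trP (fun i => decide (i = 1)), trP_mem _⟩, fun h => ?_⟩
  have h0 : σ [] = [] := by
    have h1 := (hσ [] (σ⁻¹ [])).1 (List.nil_prefix)
    rw [app_inv] at h1
    exact List.prefix_nil.1 h1
  set u := σ⁻¹ [false] with hu
  have hσu : σ u = [false] := app_inv _ _
  have hu1 : u ≠ [] := by
    intro h1
    rw [h1, h0] at hσu
    exact absurd hσu (by simp)
  have hul : u.length ≤ 1 := by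
    have h1 : σ (u.take 1) <+: [false] := by
      have := (hσ _ _).1 (List.take_prefix 1 u)
      rwa [hσu] at this
    have h2 : σ (u.take 1) = [] ∨ σ (u.take 1) = [false] := by
      have h3 := List.prefix_iff_eq_take.1 h1
      have h4 := h1.length_le
      rw [List.length_singleton] at h4
      rcases Nat.le_one_iff_eq_zero_or_eq_one.1 h4 with h5 | h5
      · left
        exact List.length_eq_zero_iff.1 h5
      · right
        rw [h3, h5]
        rfl
    rcases h2 with h2 | h2
    · exfalso
      rw [← h0] at h2
      have h3 := σ.injective h2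
      rw [List.take_eq_nil_iff] at h3
      rcases h3 with h3 | h3
      · exact absurd h3 (by norm_num)
      · exact hu1 h3
    · rw [← hσu] at h2
      have h3 := σ.injective h2
      rw [← h3]
      simp
  obtain ⟨x, hx⟩ : ∃ x, u = [x] := by
    match u, hu1, hul with
    | [x], _, _ => exact ⟨x, rfl⟩
  have h1 := congrArg (fun f : Equiv.Perm (List Bool) => f [false]) h
  simp only [Equiv.Perm.mul_apply, ← hu, hx, Phi_apply] at h1
  have h2 : (trP (fun i => decide (i = 1))) [x] = [x] := by
    simp [trP, tr]
  rw [h2, ← hx, hσu] at h1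
  revert h1
  simp [PhiFun, trP, tr, sw]

end Pool.Agent.Helper4W
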